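import Pool.Agent.Helper96.KS.Parts

set_option autoImplicit false

open Finset

namespace KS.OS_helper96

open scoped Classical
open KS KS.Inst

variable {K : ℕ} {I : Inst K}

lemma pick_spec {s : ℕ} {om : ℝ} {S : I.St} {u : I.H} (h : pick s om S = some u) :
    u ∈ S.L ∧ S.dep u < s ∧ om ≤ S.wt u ∧ ∀ a ∈ procs s om S, S.dep u ≤ S.dep a := by
  unfold pick at h
  split_ifs at h with hne
  have hc := Classical.choose_spec (Finset.exists_min_image (procs s om S) S.dep hne)
  rw [Option.some.injEq] at h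
  rw [h] at hc
  have h1 := hc.1
  simp only [procs, mem_filter] at h1
  exact ⟨h1.1, h1.2.1, h1.2.2, hc.2⟩

lemma ch_card {Δ : ℕ} (hV : I.Valid Δ) (v : I.H) : ((I.ch v).card : ℝ) = I.dg v := by
  have h1 : (I.ch v) = (univ.filter fun h : I.H => h.1 = v.1).erase v := by
    ext h; simp [ch, and_comm]
  have h2 : (univ.filter fun h : I.H => h.1 = v.1).card = I.d v.1 := by
    have : (univ.filter fun h : I.H => h.1 = v.1) = (univ : Finset (Fin (I.d v.1))).map
        ⟨fun i => (⟨v.1, i⟩ : I.H), fun i j hij => by simpa using hij⟩ := by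
      ext ⟨a, i⟩
      simp only [mem_filter, mem_univ, true_and, mem_map, Function.Embedding.coeFn_mk]
      constructor
      · intro h
        subst h
        exact ⟨i, rfl⟩
      · rintro ⟨j, hj⟩
        have := congrArg Sigma.fst hj
        exact this.symm
    rw [this, card_map, card_univ, Fintype.card_fin]
  rw [h1, card_erase_of_mem (by simp), h2]
  rfl


lemma c_ch {v a : I.H} (h : a ∈ I.ch v) : I.c a = I.c v := by
  simp only [ch, mem_filter, mem_univ, true_and] at h
  unfold Inst.c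
  rw [h.1]

lemma sum_fresh {Δ : ℕ} (hV : I.Valid Δ) {S : I.St} {u v : I.H} (hu : u ∈ S.L)
    (hf : Fresh S v) (g : ℕ → Fin K → ℝ → ℝ) :
    ∑ a ∈ (nxt S u v).L, g ((nxt S u v).dep a) (I.c a) ((nxt S u v).wt a)
      = ∑ a ∈ S.L, g (S.dep a) (I.c a) (S.wt a) - g (S.dep u) (I.c u) (S.wt u)
        + I.dg v * g (S.dep u + 1) (I.c v) (S.wt u / I.dg v) := by
  have hn : nxt S u v = { D := insert u (insert v S.D)
                          L := (S.L.erase u) ∪ I.ch v
                          F := S.F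
                          dep := fun h => if h ∈ I.ch v then S.dep u + 1 else S.dep h
                          wt := fun h => if h ∈ I.ch v then S.wt u / I.dg v else S.wt h } := by
    unfold nxt
    rw [if_pos hf]
  rw [hn]
  have hnot : ∀ a ∈ S.L, a ∉ I.ch v := by
    intro a ha hc
    simp only [ch, mem_filter, mem_univ, true_and] at hc
    exact (hf a hc.1).2.1 ha
  have hdis : Disjoint (S.L.erase u) (I.ch v) := by
    rw [Finset.disjoint_left]
    intro a ha
    exact hnot a (mem_of_mem_erase ha)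
  simp only
  rw [sum_union hdis]
  have e1 : ∑ a ∈ S.L.erase u, g (if a ∈ I.ch v then S.dep u + 1 else S.dep a) (I.c a)
      (if a ∈ I.ch v then S.wt u / I.dg v else S.wt a)
      = ∑ a ∈ S.L.erase u, g (S.dep a) (I.c a) (S.wt a) := by
    refine sum_congr rfl fun a ha => ?_
    rw [if_neg (hnot a (mem_of_mem_erase ha)), if_neg (hnot a (mem_of_mem_erase ha))]
  have e2 : ∑ a ∈ I.ch v, g (if a ∈ I.ch v then S.dep u + 1 else S.dep a) (I.c a)
      (if a ∈ I.ch v then S.wt u / I.dg v else S.wt a)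
      = ∑ a ∈ I.ch v, g (S.dep u + 1) (I.c v) (S.wt u / I.dg v) := by
    refine sum_congr rfl fun a ha => ?_
    rw [if_pos ha, if_pos ha, c_ch ha]
  rw [e1, e2, sum_const, nsmul_eq_mul, ch_card hV v]
  have e3 := Finset.add_sum_erase S.L (fun a => g (S.dep a) (I.c a) (S.wt a)) hu
  linarith

lemma sum_nonfresh {S : I.St} {u v : I.H} (hu : u ∈ S.L) (hvu : v ≠ u)
    (hf : ¬ Fresh S v) (g : ℕ → Fin K → ℝ → ℝ) :
    ∑ a ∈ (nxt S u v).L, g ((nxt S u v).dep a) (I.c a) ((nxt S u v).wt a)
      = ∑ a ∈ S.L, g (S.dep a) (I.c a) (S.wt a) - g (S.dep u) (I.c u) (S.wt u)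
        - (if v ∈ S.L then g (S.dep v) (I.c v) (S.wt v) else 0) := by
  have hn : nxt S u v = { D := insert u (insert v S.D)
                          L := (S.L.erase u).erase v
                          F := S.F
                          dep := S.dep
                          wt := S.wt } := by
    unfold nxt
    rw [if_neg hf]
  rw [hn]
  simp only
  have e3 := Finset.add_sum_erase S.L (fun a => g (S.dep a) (I.c a) (S.wt a)) hu
  by_cases hv : v ∈ S.L
  · have e4 := Finset.add_sum_erase (S.L.erase u) (fun a => g (S.dep a) (I.c a) (S.wt a))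
      (mem_erase.2 ⟨hvu, hv⟩)
    rw [if_pos hv]
    linarith
  · rw [if_neg hv, erase_eq_of_notMem (fun h => hv (mem_of_mem_erase h))]
    linarith

lemma nxt_F (S : I.St) (u v : I.H) : (nxt S u v).F = S.F := by
  unfold nxt; split_ifs <;> rfl

lemma nxt_D (S : I.St) (u v : I.H) : (nxt S u v).D = insert u (insert v S.D) := by
  unfold nxt; split_ifs <;> rfl

lemma sum_F {S : I.St} {u v : I.H} (hu : u ∉ S.F) (hv : v ∉ S.D) (b : I.H → ℝ) :
    ∑ a ∈ (nxt S u v).F \ (nxt S u v).D, b a
      = ∑ a ∈ S.F \ S.D, b a - (if v ∈ S.F then b v else 0) := by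
  rw [nxt_F, nxt_D]
  have h1 : S.F \ insert u (insert v S.D) = (S.F \ S.D).erase v := by
    ext a
    simp only [mem_sdiff, mem_insert, mem_erase, not_or]
    constructor
    · rintro ⟨h1, h2, h3, h4⟩
      exact ⟨h3, h1, h4⟩
    · rintro ⟨h3, h1, h4⟩
      refine ⟨h1, ?_, h3, h4⟩
      rintro rfl
      exact hu h1
  rw [h1]
  by_cases h : v ∈ S.F
  · have e4 := Finset.add_sum_erase (S.F \ S.D) b (mem_sdiff.2 ⟨h, hv⟩)
    rw [if_pos h]
    linarith
  · rw [if_neg h, erase_eq_of_notMem (fun h' => h (mem_sdiff.1 h').1)]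
    ring

/-- number of half-edges at touched vertices -/
lemma card_nonfresh {Δ : ℕ} (hV : I.Valid Δ) (S : I.St) :
    ((univ.filter fun v : I.H => ¬ Fresh S v).card : ℝ)
      ≤ Δ * ((S.D.card : ℝ) + S.L.card + S.F.card) := by
  have hsub : (univ.filter fun v : I.H => ¬ Fresh S v)
      ⊆ (S.D ∪ S.L ∪ S.F).biUnion fun h => univ.filter fun v : I.H => v.1 = h.1 := by
    intro v hv
    simp only [mem_filter, mem_univ, true_and, Fresh, not_forall] at hv
    obtain ⟨h, hh, hn⟩ := hv
    simp only [mem_biUnion, mem_union, mem_filter, mem_univ, true_and]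
    refine ⟨h, ?_, hh.symm⟩
    by_contra hc
    push Not at hc
    exact hn ⟨hc.1.1, hc.1.2, hc.2⟩
  have hcard : ∀ h : I.H, (univ.filter fun v : I.H => v.1 = h.1).card ≤ Δ := by
    intro h
    have : (univ.filter fun v : I.H => v.1 = h.1) = (univ : Finset (Fin (I.d h.1))).map
        ⟨fun i => (⟨h.1, i⟩ : I.H), fun i j hij => by simpa using hij⟩ := by
      ext ⟨a, i⟩
      simp only [mem_filter, mem_univ, true_and, mem_map]
      constructor
      · intro h
        subst h
        exact ⟨i, rfl⟩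
      · rintro ⟨j, hj⟩
        have := congrArg Sigma.fst hj
        exact this.symm
    rw [this, card_map, card_univ, Fintype.card_fin]
    exact hV.dΔ _
  have h1 := card_le_card hsub
  have h2 := Finset.card_biUnion_le_card_mul (S.D ∪ S.L ∪ S.F)
    (fun h => univ.filter fun v : I.H => v.1 = h.1) Δ (fun h _ => hcard h)
  have h3 : (S.D ∪ S.L ∪ S.F).card ≤ S.D.card + S.L.card + S.F.card :=
    (card_union_le _ _).trans (Nat.add_le_add_right (card_union_le _ _) _)
  have h4 : (univ.filter fun v : I.H => ¬ Fresh S v).card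
      ≤ (S.D.card + S.L.card + S.F.card) * Δ :=
    (h1.trans h2).trans (Nat.mul_le_mul_right _ h3)
  have h5 : ((univ.filter fun v : I.H => ¬ Fresh S v).card : ℝ)
      ≤ ((S.D.card + S.L.card + S.F.card) * Δ : ℕ) := by exact_mod_cast h4
  push_cast at h5
  linarith


lemma dg_ge {Δ : ℕ} (hV : I.Valid Δ) (v : I.H) : (2 : ℝ) ≤ I.dg v := by
  have h := hV.d3 v.1
  have : 2 ≤ I.dg v := by unfold Inst.dg; omega
  exact_mod_cast this

lemma ar1 (K D N B : ℝ) (hK : 0 ≤ K) (hN : 0 < N) (h : 4 * K * (B + 2) ≤ N)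
    (hD : D + 1 ≤ B + 2) : 8 * K ^ 2 * (D + 1) / N ^ 2 ≤ 2 * K / N := by
  rw [div_le_div_iff₀ (by positivity) hN]
  have h6 : 4 * K * (D + 1) ≤ N :=
    le_trans (mul_le_mul_of_nonneg_left hD (by positivity)) h
  have h7 := mul_le_mul_of_nonneg_left h6 (by positivity : 0 ≤ 2 * K * N)
  calc 8 * K ^ 2 * (D + 1) * N = 2 * K * N * (4 * K * (D + 1)) := by ring
    _ ≤ 2 * K * N * N := h7
    _ = 2 * K * N ^ 2 := by ring

lemma ar2 (w p q y : ℝ) (fr : Prop) [Decidable fr] (hw : 0 ≤ w) (hp0 : 0 ≤ p) (hp1 : p ≤ 1)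
    (hq0 : 0 ≤ q) (hq1 : q ≤ 1) (hy : 0 ≤ y) :
    w * p - (if fr then w * q else 0) + (if fr then 0 else y) ≤ w + y ∧
    -w ≤ w * p - (if fr then w * q else 0) + (if fr then 0 else y) := by
  have h1 : w * p ≤ w := by nlinarith
  have h2 : 0 ≤ w * p := by positivity
  have h3 : w * q ≤ w := by nlinarith
  have h4 : 0 ≤ w * q := by positivity
  split_ifs
  · constructor <;> linarith
  · constructor <;> linarith

lemma ar3 (w y X : ℝ) (h1 : X ≤ w + y) (h2 : -w ≤ X) (hw : 0 ≤ w) (hy : 0 ≤ y) :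
    X ^ 2 ≤ 2 * w ^ 2 + 2 * y ^ 2 := by
  have h3 : X ^ 2 ≤ (w + y) ^ 2 := by
    apply sq_le_sq' <;> linarith
  nlinarith [sq_nonneg (w - y)]

lemma ar4 (lam w y X : ℝ) (hlam : 0 ≤ lam) (h1 : X ≤ w + y) (h2 : -w ≤ X)
    (h3 : 4 * lam * w ≤ 1) (h4 : 4 * lam * y ≤ 1) : |lam * X| ≤ 1 := by
  have a := mul_le_mul_of_nonneg_left h1 hlam
  have b := mul_le_mul_of_nonneg_left h2 hlam
  rw [abs_le]
  constructor <;> nlinarith

lemma ar5 (K N De B D om w e1 er : ℝ) (hK : 2 ≤ K) (hN : 0 < N) (hDe : 3 ≤ De) (hD0 : 0 ≤ D)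
    (hDB : D ≤ B) (hom : 0 < om) (hw : om ≤ w)
    (he1 : e1 = 8 * K ^ 2 * (D + 1) / N ^ 2)
    (her : er = 20 * K ^ 2 * De * (B + 1) / N + 20 * K / (N * om)) :
    w * (N * e1 + K / N * (De * B)) + 6 * K / N + 3 * K / N ≤ er * w := by
  have hw0 : 0 < w := by linarith
  have h9 : 9 * K / N ≤ w * (9 * K / (N * om)) := by
    have e : w * (9 * K / (N * om)) = 9 * K / N * (w / om) := by field_simp
    rw [e]
    have h1 : 1 ≤ w / om := by rw [le_div_iff₀ hom]; linarith
    have h2 : 0 ≤ 9 * K / N := by positivity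
    calc 9 * K / N = 9 * K / N * 1 := (mul_one _).symm
      _ ≤ _ := mul_le_mul_of_nonneg_left h1 h2
  have h10 : N * e1 = 8 * K ^ 2 * (D + 1) / N := by
    rw [he1]
    field_simp
  have e2 : 8 * K ^ 2 * (D + 1) ≤ 8 * K ^ 2 * De * (B + 1) := by
    have h1 : D + 1 ≤ De * (B + 1) := by nlinarith
    have h2 := mul_le_mul_of_nonneg_left h1 (by positivity : 0 ≤ 8 * K ^ 2)
    linarith
  have e3 : K * (De * B) ≤ 12 * K ^ 2 * De * (B + 1) := by
    have hB : 0 ≤ B := hD0.trans hDB
    have e4 : 0 ≤ De * B := by positivity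
    have e5 : K ≤ 12 * K ^ 2 := by nlinarith
    have e6 := mul_le_mul_of_nonneg_right e5 e4
    have e7 : 0 ≤ 12 * K ^ 2 * De := by positivity
    nlinarith
  have h11 : 8 * K ^ 2 * (D + 1) / N + K / N * (De * B) ≤ 20 * K ^ 2 * De * (B + 1) / N := by
    have e1' : 8 * K ^ 2 * (D + 1) / N + K / N * (De * B)
        = (8 * K ^ 2 * (D + 1) + K * (De * B)) / N := by ring
    rw [e1']
    apply div_le_div_of_nonneg_right _ hN.le
    linarith
  have h13 : w * (9 * K / (N * om)) ≤ w * (20 * K / (N * om)) := by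
    apply mul_le_mul_of_nonneg_left _ hw0.le
    apply div_le_div_of_nonneg_right _ (by positivity)
    linarith
  rw [her, h10]
  have h14 := mul_le_mul_of_nonneg_left h11 hw0.le
  have h15 : 6 * K / N + 3 * K / N = 9 * K / N := by ring
  linarith

theorem main (hQ : S_Q) (hT : S_TN) : S_OS := by
  intro K Δ I hV s om B lam G b η0 S u pv hom hlam hG0 hG1 hb hInv hN hL hF hFb hpick hp0 hp1 hpq
  obtain ⟨-, -, -, -, hq0, hqK, hq1, -⟩ := hQ K Δ I hV
  obtain ⟨tmono, -, tconst, -, -, -⟩ := hT K Δ I hV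
  obtain ⟨huL, hus, huw, -⟩ := pick_spec hpick
  have hNpos : (0 : ℝ) < I.N := by exact_mod_cast hV.npos
  have hK2 : (2 : ℝ) ≤ K := by exact_mod_cast hV.hK
  set w := S.wt u with hw
  have hw0 : 0 < w := hInv.wpos u huL
  have hphi0 : ∀ n k x, 0 ≤ I.Tn n G k x := by
    intro n k x
    have h := tmono n (fun _ _ => 0) G (fun k x => hG0 k x) k x
    rwa [tconst] at h
  have hphi1 : ∀ n k x, I.Tn n G k x ≤ 1 := by
    intro n k x
    have h := tmono n G (fun _ _ => 1) (fun k x => hG1 k x) k x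
    rwa [tconst] at h
  obtain ⟨n, hn⟩ : ∃ n, s - S.dep u = n + 1 := ⟨s - S.dep u - 1, by omega⟩
  have hn' : s - (S.dep u + 1) = n := by omega
  have hsd : (1 : ℝ) ≤ (s : ℝ) - S.dep u := by
    have : S.dep u + 1 ≤ s := hus
    have : ((S.dep u : ℝ) + 1) ≤ s := by exact_mod_cast this
    linarith
  set ps : I.H → ℝ := fun v => I.Tn n G (I.c v) (-Real.log w + Real.log (I.dg v)) with hps
  set phu := I.Tn (s - S.dep u) G (I.c u) (-Real.log w) with hphu
  have hphiu : phu = ∑ v, I.q (I.c u) v * ps v := by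
    rw [hphu, hn]
    unfold Inst.Tn
    rw [Function.iterate_succ_apply']
    rfl
  have hps0 : ∀ v, 0 ≤ ps v := fun v => hphi0 _ _ _
  have hps1 : ∀ v, ps v ≤ 1 := fun v => hphi1 _ _ _
  have hphu0 : 0 ≤ phu := hphi0 _ _ _
  have hphu1 : phu ≤ 1 := hphi1 _ _ _
  set y : I.H → ℝ := fun v => (if v ∈ S.L then S.wt v else 0) + (if v ∈ S.F then b v else 0)
    with hy
  have hy0 : ∀ v, 0 ≤ y v := by
    intro v
    rw [hy]
    have h1 : 0 ≤ (if v ∈ S.L then S.wt v else 0) := by
      split_ifs with h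
      · exact (hInv.wpos v h).le
      · exact le_rfl
    have h2 : 0 ≤ (if v ∈ S.F then b v else 0) := by
      split_ifs with h
      · exact hb v
      · exact le_rfl
    simp only
    linarith
  have hy4 : ∀ v, 4 * lam * y v ≤ 1 := by
    intro v
    rw [hy]
    simp only
    by_cases h : v ∈ S.L
    · rw [if_pos h, if_neg (hInv.LF v h), add_zero]
      exact hL v h
    · by_cases h' : v ∈ S.F
      · rw [if_neg h, if_pos h', zero_add]
        exact hF v h'
      · rw [if_neg h, if_neg h']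
        norm_num
  set X : I.H → ℝ := fun v => w * phu - (if Fresh S v then w * ps v else 0)
    + (if Fresh S v then 0 else y v) with hX
  set Psi : ℝ := -lam * Z s G b S + 4 * lam ^ 2 * ∑ a ∈ S.L, S.wt a ^ 2
        + lam * I.err Δ om B * ∑ a ∈ S.L, S.wt a * ((s : ℝ) - S.dep a) with hPsi
  set er := I.err Δ om B with her
  have hBnn : 0 ≤ (S.D.card : ℝ) + S.L.card + S.F.card := by positivity
  have hcr : 0 ≤ 2 * (Δ : ℝ) * (∑ a ∈ S.L, S.wt a * ((s : ℝ) - S.dep a)) / om := by
    apply div_nonneg _ hom.le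
    apply mul_nonneg (by positivity)
    apply sum_nonneg
    intro a ha
    apply mul_nonneg (hInv.wpos a ha).le
    have : (S.dep a : ℝ) ≤ s := by exact_mod_cast hInv.deps a ha
    linarith
  have hcap : (S.D.card : ℝ) + S.L.card + S.F.card ≤ B := by
    have := hInv.cap
    linarith
  have hB0 : 0 ≤ B := hBnn.trans hcap
  have her0 : 0 ≤ er := by
    rw [her]
    unfold Inst.err
    positivity
  -- the exponent of the next state
  have hexp : ∀ v, v ∉ S.D → v ≠ u →
      -lam * Z s G b (nxt S u v) + 4 * lam ^ 2 * ∑ a ∈ (nxt S u v).L, (nxt S u v).wt a ^ 2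
        + lam * er * ∑ a ∈ (nxt S u v).L, (nxt S u v).wt a * ((s : ℝ) - (nxt S u v).dep a)
      ≤ Psi + lam * X v - 2 * lam ^ 2 * w ^ 2 - lam * er * w := by
    intro v hvD hvu
    have hZ : Z s G b (nxt S u v) = ∑ a ∈ (nxt S u v).L, (nxt S u v).wt a *
        I.Tn (s - (nxt S u v).dep a) G (I.c a) (-Real.log ((nxt S u v).wt a))
        + ∑ a ∈ (nxt S u v).F \ (nxt S u v).D, b a := rfl
    have hZ0 : Z s G b S = ∑ a ∈ S.L, S.wt a *
        I.Tn (s - S.dep a) G (I.c a) (-Real.log (S.wt a)) + ∑ a ∈ S.F \ S.D, b a := rfl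
    have hFs := sum_F (S := S) (u := u) (v := v) (hInv.LF u huL) hvD b
    by_cases hf : Fresh S v
    · have g1 := sum_fresh hV huL hf
        (fun d k x => x * I.Tn (s - d) G k (-Real.log x))
      have g2 := sum_fresh hV huL hf (fun _ _ x => x ^ 2)
      have g3 := sum_fresh hV huL hf (fun d _ x => x * ((s : ℝ) - d))
      have hvF : v ∉ S.F := (hf v rfl).2.2
      rw [if_neg hvF, sub_zero] at hFs
      have hd2 := dg_ge hV v
      have hd0 : (0 : ℝ) < I.dg v := by linarith
      have hlog : -Real.log (w / I.dg v) = -Real.log w + Real.log (I.dg v) := by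
        rw [Real.log_div hw0.ne' hd0.ne']
        ring
      have k1 : (I.dg v : ℝ) * (S.wt u / I.dg v * I.Tn (s - (S.dep u + 1)) G (I.c v)
          (-Real.log (S.wt u / I.dg v))) = w * ps v := by
        rw [← hw, hlog, hn', hps]
        field_simp
      have k2 : (I.dg v : ℝ) * (S.wt u / I.dg v) ^ 2 ≤ w ^ 2 / 2 := by
        rw [← hw]
        have : (I.dg v : ℝ) * (w / I.dg v) ^ 2 = w ^ 2 / I.dg v := by
          field_simp
        rw [this]
        exact div_le_div_of_nonneg_left (by positivity) (by norm_num) hd2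
      have k3 : (I.dg v : ℝ) * (S.wt u / I.dg v * ((s : ℝ) - ((S.dep u + 1 : ℕ) : ℝ)))
          = w * ((s : ℝ) - S.dep u) - w := by
        rw [← hw]
        push_cast
        field_simp
        ring
      rw [k1] at g1
      rw [k3] at g3
      have hXv : X v = w * phu - w * ps v := by
        rw [hX]
        simp only
        rw [if_pos hf, if_pos hf, add_zero]
      rw [hZ, g1, g2, g3, hFs, hPsi, hZ0, hXv]
      have hsq : 4 * lam ^ 2 * ((I.dg v : ℝ) * (S.wt u / I.dg v) ^ 2)
          ≤ 4 * lam ^ 2 * (w ^ 2 / 2) := mul_le_mul_of_nonneg_left k2 (by positivity)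
      rw [← hw] at hsq ⊢
      nlinarith [hsq]
    · have g1 := sum_nonfresh huL hvu hf
        (fun d k x => x * I.Tn (s - d) G k (-Real.log x))
      have g2 := sum_nonfresh huL hvu hf (fun _ _ x => x ^ 2)
      have g3 := sum_nonfresh huL hvu hf (fun d _ x => x * ((s : ℝ) - d))
      have hXv : X v = w * phu + y v := by
        rw [hX]
        simp only
        rw [if_neg hf, if_neg hf, sub_zero]
      have k1 : (if v ∈ S.L then S.wt v * I.Tn (s - S.dep v) G (I.c v) (-Real.log (S.wt v))
          else 0) ≤ (if v ∈ S.L then S.wt v else 0) := by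
        split_ifs with h
        · have := mul_le_mul_of_nonneg_left
            (hphi1 (s - S.dep v) (I.c v) (-Real.log (S.wt v))) (hInv.wpos v h).le
          linarith
        · exact le_rfl
      have k2 : 0 ≤ (if v ∈ S.L then S.wt v ^ 2 else 0) := by
        split_ifs <;> positivity
      have k3 : 0 ≤ (if v ∈ S.L then S.wt v * ((s : ℝ) - S.dep v) else 0) := by
        split_ifs with h
        · apply mul_nonneg (hInv.wpos v h).le
          have : (S.dep v : ℝ) ≤ s := by exact_mod_cast hInv.deps v h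
          linarith
        · exact le_rfl
      rw [hZ, g1, g2, g3, hFs, hPsi, hZ0, hXv]
      rw [← hw]
      have m1 := mul_le_mul_of_nonneg_left k1 hlam
      have m2 : 0 ≤ 4 * lam ^ 2 * (if v ∈ S.L then S.wt v ^ 2 else 0) := by positivity
      have m3 : 0 ≤ lam * er * (if v ∈ S.L then S.wt v * ((s : ℝ) - S.dep v) else 0) := by
        positivity
      have m4 : lam * er * w ≤ lam * er * (w * ((s : ℝ) - S.dep u)) := by
        apply mul_le_mul_of_nonneg_left _ (by positivity)
        nlinarith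
      have m5 : 0 ≤ lam ^ 2 * w ^ 2 := by positivity
      have m6 : y v = (if v ∈ S.L then S.wt v else 0) + (if v ∈ S.F then b v else 0) := rfl
      rw [m6]
      have m7 : lam * (w * I.Tn (s - S.dep u) G (I.c u) (-Real.log w)) = lam * (w * phu) := rfl
      rw [← hphu]
      linarith
  -- the bound of X
  have hX2 : ∀ v, X v ≤ w + y v ∧ -w ≤ X v := fun v =>
    ar2 w phu (ps v) (y v) (Fresh S v) hw0.le hphu0 hphu1 (hps0 v) (hps1 v) (hy0 v)
  have hXabs : ∀ v, |lam * X v| ≤ 1 := fun v =>
    ar4 lam w (y v) (X v) hlam (hX2 v).1 (hX2 v).2 (hL u huL) (hy4 v)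
  have hXsq : ∀ v, X v ^ 2 ≤ 2 * w ^ 2 + 2 * y v ^ 2 := fun v =>
    ar3 w (y v) (X v) (hX2 v).1 (hX2 v).2 hw0.le (hy0 v)
  set U := univ.filter (fun v : I.H => v ∉ S.D ∧ v ≠ u) with hU
  -- first moment
  set e1 : ℝ := 8 * (K : ℝ) ^ 2 * (S.D.card + 1) / (I.N : ℝ) ^ 2 with he1
  have he10 : 0 ≤ e1 := by rw [he1]; positivity
  have hp3 : ∀ v ∈ U, pv v ≤ 3 * K / I.N := by
    intro v hv
    simp only [hU, mem_filter, mem_univ, true_and] at hv
    have h1 := hpq v hv.1 hv.2
    have h2 := (abs_le.1 h1).2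
    have h3 := hqK (I.c u) v
    have h4 : e1 ≤ 2 * K / I.N := by
      apply ar1 K S.D.card I.N B (by positivity) hNpos hN
      have : (0 : ℝ) ≤ (S.L.card : ℝ) := by positivity
      have : (0 : ℝ) ≤ (S.F.card : ℝ) := by positivity
      linarith
    have h8 : 3 * (K : ℝ) / I.N = K / I.N + 2 * K / I.N := by ring
    rw [h8]
    linarith
  have hsumy : ∑ v ∈ U, pv v * y v ≤ 6 * K / I.N := by
    have h1 : ∑ v ∈ U, pv v * y v ≤ ∑ v ∈ U, 3 * K / I.N * y v :=
      sum_le_sum fun v hv => mul_le_mul_of_nonneg_right (hp3 v hv) (hy0 v)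
    have h2 : ∑ v ∈ U, 3 * K / I.N * y v ≤ ∑ v, 3 * K / I.N * y v :=
      sum_le_sum_of_subset_of_nonneg (subset_univ _)
        fun v _ _ => mul_nonneg (by positivity) (hy0 v)
    have h3 : ∑ v, y v ≤ 2 := by
      rw [hy]
      simp only
      rw [sum_add_distrib]
      have a1 : ∑ v, (if v ∈ S.L then S.wt v else 0) = ∑ v ∈ S.L, S.wt v := by
        rw [← sum_filter]
        congr 1
        ext v; simp
      have a2 : ∑ v, (if v ∈ S.F then b v else 0) = ∑ v ∈ S.F, b v := by
        rw [← sum_filter]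
        congr 1
        ext v; simp
      rw [a1, a2]
      have := hInv.sum1
      linarith
    have h2' : ∑ v, 3 * (K : ℝ) / I.N * y v = 3 * K / I.N * ∑ v, y v := (mul_sum _ _ _).symm
    have h4 : 3 * (K : ℝ) / I.N * ∑ v, y v ≤ 3 * K / I.N * 2 :=
      mul_le_mul_of_nonneg_left h3 (by positivity)
    have h5 : 3 * (K : ℝ) / I.N * 2 = 6 * K / I.N := by ring
    rw [← h5]
    linarith
  have hfirst : ∑ v ∈ U, pv v * X v
      ≤ w * (I.N * e1 + K / I.N * (Δ * B)) + 6 * K / I.N := by
    have h1 : ∀ v ∈ U, pv v * X v ≤ pv v * (w * phu)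
        - w * (if Fresh S v then pv v * ps v else 0) + pv v * y v := by
      intro v hv
      rw [hX]
      simp only
      have := mul_nonneg (hp0 v) (hy0 v)
      split_ifs
      · nlinarith
      · nlinarith
    have h2 := sum_le_sum h1
    rw [sum_add_distrib, sum_sub_distrib, ← sum_mul, hp1, one_mul, ← mul_sum] at h2
    have h3 : phu - ∑ v ∈ U, (if Fresh S v then pv v * ps v else 0)
        ≤ I.N * e1 + K / I.N * (Δ * B) := by
      rw [hphiu]
      have hUc : ∑ v, I.q (I.c u) v * ps v = ∑ v ∈ U, I.q (I.c u) v * ps v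
          + ∑ v ∈ univ \ U, I.q (I.c u) v * ps v := by
        rw [add_comm, sum_sdiff (subset_univ U)]
      have b1 : ∀ v ∈ U, I.q (I.c u) v * ps v - (if Fresh S v then pv v * ps v else 0)
          ≤ e1 + (if Fresh S v then (0 : ℝ) else (K : ℝ) / I.N) := by
        intro v hv
        simp only [hU, mem_filter, mem_univ, true_and] at hv
        have c1 := (abs_le.1 (hpq v hv.1 hv.2)).1
        have c0 := hps0 v
        have c2 := hps1 v
        have c3 := hqK (I.c u) v
        have c4 := hq0 (I.c u) v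
        split_ifs with hf
        · have : I.q (I.c u) v * ps v - pv v * ps v = (I.q (I.c u) v - pv v) * ps v := by ring
          rw [this, add_zero]
          have c5 : I.q (I.c u) v - pv v ≤ e1 := by linarith
          calc (I.q (I.c u) v - pv v) * ps v ≤ e1 * ps v := mul_le_mul_of_nonneg_right c5 c0
            _ ≤ e1 * 1 := mul_le_mul_of_nonneg_left c2 he10
            _ = e1 := mul_one _
        · have : I.q (I.c u) v * ps v ≤ I.q (I.c u) v * 1 := mul_le_mul_of_nonneg_left c2 c4
          linarith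
      have b2 : ∀ v ∈ univ \ U, I.q (I.c u) v * ps v
          ≤ (if Fresh S v then (0 : ℝ) else (K : ℝ) / I.N) := by
        intro v hv
        have hnf : ¬ Fresh S v := by
          intro hf
          simp only [hU, mem_sdiff, mem_univ, true_and, mem_filter, not_and, not_not] at hv
          by_cases hD : v ∈ S.D
          · exact (hf v rfl).1 hD
          · have := hv hD
            subst this
            exact (hf v rfl).2.1 huL
        rw [if_neg hnf]
        have c2 := hps1 v
        have c4 := hq0 (I.c u) v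
        have : I.q (I.c u) v * ps v ≤ I.q (I.c u) v * 1 := mul_le_mul_of_nonneg_left c2 c4
        linarith [hqK (I.c u) v]
      have b3 := sum_le_sum b1
      have b4 := sum_le_sum b2
      rw [sum_sub_distrib, sum_add_distrib, sum_const, nsmul_eq_mul] at b3
      have b5 : ∑ v ∈ U, (if Fresh S v then (0 : ℝ) else (K : ℝ) / I.N)
          + ∑ v ∈ univ \ U, (if Fresh S v then (0 : ℝ) else (K : ℝ) / I.N)
          = K / I.N * ((univ.filter fun v : I.H => ¬ Fresh S v).card : ℝ) := by
        rw [add_comm, sum_sdiff (subset_univ U)]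
        have : ∀ v : I.H, (if Fresh S v then (0 : ℝ) else (K : ℝ) / I.N)
            = if ¬ Fresh S v then ((K : ℝ) / I.N) else 0 := by
          intro v; split_ifs <;> simp_all
        rw [sum_congr rfl fun v _ => this v, ← sum_filter, sum_const, nsmul_eq_mul]
        ring
      have b6 : (U.card : ℝ) * e1 ≤ I.N * e1 := by
        apply mul_le_mul_of_nonneg_right _ he10
        have : U.card ≤ I.N := by
          unfold Inst.N
          exact card_le_univ U
        exact_mod_cast this
      have b7 : (K / I.N : ℝ) * ((univ.filter fun v : I.H => ¬ Fresh S v).card : ℝ)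
          ≤ K / I.N * (Δ * B) := by
        apply mul_le_mul_of_nonneg_left _ (by positivity)
        exact (card_nonfresh hV S).trans (mul_le_mul_of_nonneg_left hcap (by positivity))
      rw [hUc]
      linarith
    have h4 := mul_le_mul_of_nonneg_left h3 hw0.le
    linarith
  -- second moment
  have hsecond : lam ^ 2 * ∑ v ∈ U, pv v * X v ^ 2 ≤ 2 * lam ^ 2 * w ^ 2 + lam * (3 * K / I.N) := by
    have h1 : ∀ v ∈ U, lam ^ 2 * (pv v * X v ^ 2) ≤ pv v * (2 * lam ^ 2 * w ^ 2)
        + lam / 2 * (pv v * y v) := by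
      intro v hv
      have h2 := mul_le_mul_of_nonneg_left (hXsq v) (hp0 v)
      have h3 := mul_le_mul_of_nonneg_left h2 (sq_nonneg lam)
      have h4 : lam ^ 2 * (pv v * (2 * y v ^ 2)) ≤ lam / 2 * (pv v * y v) := by
        have h5 : 0 ≤ lam / 2 * (pv v * y v) := by
          have := mul_nonneg (hp0 v) (hy0 v)
          positivity
        have h6 := mul_le_mul_of_nonneg_left (hy4 v) h5
        nlinarith
      nlinarith
    rw [mul_sum]
    refine (sum_le_sum h1).trans ?_
    rw [sum_add_distrib, ← sum_mul, hp1, one_mul, ← mul_sum]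
    have h7 : lam / 2 * ∑ v ∈ U, pv v * y v ≤ lam / 2 * (6 * K / I.N) :=
      mul_le_mul_of_nonneg_left hsumy (by positivity)
    have h8 : lam / 2 * (6 * (K : ℝ) / I.N) = lam * (3 * K / I.N) := by ring
    linarith
  -- conclusion
  have hmain : ∑ v ∈ U, pv v * Real.exp (lam * X v)
      ≤ 1 + (2 * lam ^ 2 * w ^ 2 + lam * er * w) := by
    have h1 : ∀ v ∈ U, pv v * Real.exp (lam * X v)
        ≤ pv v + lam * (pv v * X v) + lam ^ 2 * (pv v * X v ^ 2) := by
      intro v hv
      have h2 := Real.abs_exp_sub_one_sub_id_le (hXabs v)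
      have h3 := (abs_le.1 h2).2
      have h4 : Real.exp (lam * X v) ≤ 1 + lam * X v + (lam * X v) ^ 2 := by linarith
      have h5 := mul_le_mul_of_nonneg_left h4 (hp0 v)
      nlinarith
    refine (sum_le_sum h1).trans ?_
    rw [sum_add_distrib, sum_add_distrib, ← mul_sum, ← mul_sum, hp1]
    have h6 := mul_le_mul_of_nonneg_left hfirst hlam
    have h7 : lam * (w * (I.N * e1 + K / I.N * (Δ * B)) + 6 * K / I.N) + lam * (3 * K / I.N)
        ≤ lam * er * w := by
      have h8 : w * (I.N * e1 + K / I.N * (Δ * B)) + 6 * K / I.N + 3 * K / I.N ≤ er * w := by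
        have hΔ3 : (3 : ℝ) ≤ Δ := by
          have h3 := hV.d3 u.1
          have h4 := hV.dΔ u.1
          exact_mod_cast h3.trans h4
        have hDB : (S.D.card : ℝ) ≤ B := by
          have : (0 : ℝ) ≤ (S.L.card : ℝ) := by positivity
          have : (0 : ℝ) ≤ (S.F.card : ℝ) := by positivity
          linarith
        exact ar5 K I.N Δ B S.D.card om w e1 er hK2 hNpos hΔ3 (by positivity) hDB hom huw he1 rfl
      have h16 := mul_le_mul_of_nonneg_left h8 hlam
      linarith
    linarith
  calc ∑ v ∈ U, pv v * Real.exp (-lam * Z s G b (nxt S u v)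
          + 4 * lam ^ 2 * ∑ a ∈ (nxt S u v).L, (nxt S u v).wt a ^ 2
        + lam * er * ∑ a ∈ (nxt S u v).L, (nxt S u v).wt a * ((s : ℝ) - (nxt S u v).dep a))
      ≤ ∑ v ∈ U, Real.exp (Psi - (2 * lam ^ 2 * w ^ 2 + lam * er * w))
          * (pv v * Real.exp (lam * X v)) := by
        apply sum_le_sum
        intro v hv
        simp only [hU, mem_filter, mem_univ, true_and] at hv
        have h1 := hexp v hv.1 hv.2
        have h2 : Real.exp (Psi - (2 * lam ^ 2 * w ^ 2 + lam * er * w))
            * (pv v * Real.exp (lam * X v))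
            = pv v * Real.exp (Psi + lam * X v - 2 * lam ^ 2 * w ^ 2 - lam * er * w) := by
          rw [show Psi + lam * X v - 2 * lam ^ 2 * w ^ 2 - lam * er * w
            = (Psi - (2 * lam ^ 2 * w ^ 2 + lam * er * w)) + lam * X v by ring, Real.exp_add]
          ring
        rw [h2]
        exact mul_le_mul_of_nonneg_left (Real.exp_le_exp.2 h1) (hp0 v)
    _ = Real.exp (Psi - (2 * lam ^ 2 * w ^ 2 + lam * er * w))
          * ∑ v ∈ U, pv v * Real.exp (lam * X v) := by rw [mul_sum]
    _ ≤ Real.exp (Psi - (2 * lam ^ 2 * w ^ 2 + lam * er * w))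
          * (1 + (2 * lam ^ 2 * w ^ 2 + lam * er * w)) :=
        mul_le_mul_of_nonneg_left hmain (Real.exp_pos _).le
    _ ≤ Real.exp (Psi - (2 * lam ^ 2 * w ^ 2 + lam * er * w))
          * Real.exp (2 * lam ^ 2 * w ^ 2 + lam * er * w) := by
        apply mul_le_mul_of_nonneg_left _ (Real.exp_pos _).le
        have := Real.add_one_le_exp (2 * lam ^ 2 * w ^ 2 + lam * er * w)
        linarith
    _ = Real.exp Psi := by
        rw [← Real.exp_add]
        congr 1
        ring

end KS.OS_helper96
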