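import Pool.Agent.Helper96.KS.Model
import Pool.Agent.Helper96.KS.OS
import Pool.Agent.Helper16.KS.DNC
import Pool.Agent.Helper16.KS.PL1
import Pool.Agent.Helper2.KS.UB
import Pool.Agent.Helper2.KS.LB
import Pool.Agent.Helper20.KS.MOM
import Pool.Agent.Helper32.KS.CHEB
import Pool.Agent.Helper32.KS.Q
import Pool.Agent.Helper32.KS.WT
import Pool.Agent.Helper36.KS.TL1
import Pool.Agent.Helper36.KS.TL2
import Pool.Agent.Helper36.KS.CL
import Pool.Agent.Helper36.KS.INV
import Pool.Agent.Helper41.KS.FM
import Pool.Agent.Helper41.KS.PL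
import Pool.Agent.Helper46.KS.PAIR
import Pool.Agent.Helper49.KS.FIN
import Pool.Agent.Helper49.KS.NE
import Pool.Agent.Helper49.KS.REV
import Pool.Agent.Helper49.KS.SK
import Pool.Agent.Helper49.KS.ST
import Pool.Agent.Helper49.KS.TN
import Pool.Agent.Helper53.KS.C1
import Pool.Agent.Helper53.KS.ID
import Pool.Agent.Helper74.KS.FB
import Pool.Agent.Helper77.KS.AL
import Pool.Agent.Helper78.KS.F0
import Pool.Agent.Helper78.KS.F1
import Pool.Agent.Helper78.KS.MULT
import Pool.Agent.Helper90.KS.F2a
import Pool.Agent.Helper90.KS.F2b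
import Pool.Agent.Helper90.KS.TOUCH

/-!
# MP_17e8f0_pr: assembly of the parts of the swarm KS
-/

set_option autoImplicit false

namespace KS.All

open KS

theorem q : S_Q := Q_helper32.main
theorem tn : S_TN := TN_h49.main q
theorem ne : S_NE := NE_h49.main
theorem pl1 : S_PL1 := PL1_helper16.main
theorem pl : S_PL := PL_helper41.main pl1
theorem st : S_ST := ST_h49.main
theorem mult : S_MULT := MULT_78.main pl q
theorem os : S_OS := OS_helper96.main q tn
theorem inv : S_INV := INV_helper36.main
theorem tl2 : S_TL2 := TL2_helper36.main os inv pl st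
theorem tl1 : S_TL1 := TL1_helper36.main tl2 tn inv st
theorem cl : S_CL := CL_helper36.main inv
theorem wt : S_WT := WT_helper32.main
theorem sk : S_SK := SK_h49.main
theorem rev : S_REV := REV_h49.main
theorem dnc : S_DNC := DNC_helper16.main
theorem touch : S_TOUCH := TOUCH_h90.main
theorem fm : S_FM := FM_helper41.main st pl q
theorem f0 : S_F0 := F0_78.main mult
theorem f1 : S_F1 := F1_78.main f0
theorem f2a : S_F2a := F2a_h90.main
theorem fb : S_FB := FB_helper74.main f0 f2a
theorem f2b : S_F2b := F2b_h90.main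
theorem c1 : S_C1 := C1_helper53.main q
theorem mom : S_MOM := MOM_helper20.main q tn c1
theorem cheb : S_CHEB := CHEB_helper32.main mom c1 tn
theorem id' : S_ID := ID_helper53.main q
theorem pair : S_PAIR := PAIR_helper46.main tl1 cl tn sk rev dnc q wt fm
theorem ub : S_UB := UB_helper2.main pair f1 fb f2b rev touch cl
theorem lb : S_LB := LB_helper2.main tl1 cl sk rev dnc fb ne tn

theorem fin (hPZ : S_PZ) (hUBA : S_UBA) (hLBA : S_LBA) (hAU1 : S_AU1) (hAU2 : S_AU2) : S_FIN :=
  FIN_h49.main hAU1 hAU2 (AL_helper77.al1 hLBA cheb c1 rev tn) (AL_helper77.al2 hLBA hPZ c1 rev tn)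
    rev ne c1

end KS.All
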