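import Pool.Agent.Helper96.KS.All
import Pool.Agent.Helper20.KS.PZ
import Pool.Agent.Helper66.KS.UBA
import Pool.Agent.Helper66.KS.LBA
import Pool.Agent.Helper31.KS.AU1
import Pool.Agent.Helper31.KS.AU2

/-!
# MP_17e8f0_pr: the final theorem of the swarm KS
-/

set_option autoImplicit false

namespace KS.Complete

open KS KS.All

theorem pz : S_PZ := PZ_helper20.main q tn c1 mom cheb
theorem uba : S_UBA := UBA_h66.main ub tn q
theorem lba : S_LBA := LBA_h66.main lb
theorem au1 : S_AU1 := H31.au1 uba id' cheb c1 rev tn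
theorem au2 : S_AU2 := H31.au2 uba id' pz cheb c1 rev tn
theorem final : S_FIN := fin pz uba lba au1 au2

end KS.Complete
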