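import Mathlib

/-!
# Cutoff for non-backtracking walks with K communities (MP_17e8f0_pr): definitions

Blueprint: see the docstrings in `Parts.lean`.
-/

set_option autoImplicit false

open Finset

namespace KS

/-- a degree sequence on `Fin n`, a community for every vertex and the number `p` of
edges between two different communities -/
structure Inst (K : ℕ) where
  n : ℕ
  d : Fin n → ℕ
  com : Fin n → Fin K
  p : ℕ

open scoped Classical

namespace Inst

variable {K : ℕ} (I : Inst K)

/-- half-edges -/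
abbrev H : Type := Σ v : Fin I.n, Fin (I.d v)

/-- community of a half-edge -/
def c (x : I.H) : Fin K := I.com x.1

/-- `deg x = d(v) - 1` -/
def dg (x : I.H) : ℕ := I.d x.1 - 1

/-- number of half-edges -/
def N : ℕ := Fintype.card I.H

/-- the half-edges of community `k` -/
noncomputable def Hk (k : Fin K) : Finset I.H := univ.filter fun x => I.c x = k

/-- the standing assumptions -/
structure Valid (Δ : ℕ) : Prop where
  hK : 2 ≤ K
  d3 : ∀ v, 3 ≤ I.d v
  dΔ : ∀ v, I.d v ≤ Δ
  bal : ∀ k : Fin K, K * (I.Hk k).card = I.N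
  blocks : ∀ k : Fin K, (K - 1) * I.p ≤ (I.Hk k).card
  even : ∀ k : Fin K, Even ((I.Hk k).card - (K - 1) * I.p)
  al1 : I.p * K ^ 2 ≤ I.N
  npos : 0 < I.N

/-- admissible pairings -/
noncomputable def Om : Finset (I.H → I.H) :=
  univ.filter fun η =>
    (∀ x, η (η x) = x) ∧ (∀ x, η x ≠ x) ∧
      ∀ k l : Fin K, k ≠ l → (univ.filter fun x : I.H => I.c x = k ∧ I.c (η x) = l).card = I.p

/-- probability of an event for the uniform admissible pairing -/
noncomputable def pr (E : (I.H → I.H) → Prop) : ℝ := ((I.Om.filter E).card : ℝ) / I.Om.card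

/-- transition matrix of the non-backtracking walk -/
noncomputable def P (η : I.H → I.H) : Matrix I.H I.H ℝ := fun x y =>
  if y.1 = (η x).1 ∧ y ≠ η x then 1 / (I.dg (η x) : ℝ) else 0

noncomputable def Dx (η : I.H → I.H) (t : ℕ) (x : I.H) : ℝ :=
  ∑ y, max (1 / (I.N : ℝ) - ((I.P η) ^ t) x y) 0

/-- worst case distance to equilibrium -/
noncomputable def D (η : I.H → I.H) (t : ℕ) : ℝ := ⨆ x, I.Dx η t x

/-- `t_mix(ε) = m` -/
def IsTmix (η : I.H → I.H) (ε : ℝ) (m : ℕ) : Prop := IsLeast {t : ℕ | I.D η t < ε} m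

noncomputable def al : ℝ := (I.p : ℝ) * (K : ℝ) ^ 2 / I.N

noncomputable def mu : ℝ := (1 / (I.N : ℝ)) * ∑ x : I.H, Real.log (I.dg x)

noncomputable def sig2 : ℝ := (1 / (I.N : ℝ)) * ∑ x : I.H, (Real.log (I.dg x) - I.mu) ^ 2

noncomputable def muk (k : Fin K) : ℝ := ((K : ℝ) / I.N) * ∑ x ∈ I.Hk k, Real.log (I.dg x)

noncomputable def nu2 : ℝ :=
  I.sig2 + 2 * (1 - I.al) / ((K : ℝ) ^ 2 * I.al) *
    (((K : ℝ) - 1) * ∑ k, I.muk k ^ 2
      - ∑ k : Fin K, ∑ l : Fin K, if k ≠ l then I.muk k * I.muk l else 0)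

/-- the window -/
noncomputable def w : ℝ := Real.sqrt (I.nu2 / I.mu ^ 3 * Real.log I.N)

/-! ### conditioning on a part of the pairing -/

/-- the admissible pairings which agree with `η0` on `D` -/
noncomputable def Cls (η0 : I.H → I.H) (D : Finset I.H) : Finset (I.H → I.H) :=
  I.Om.filter fun η => ∀ x ∈ D, η x = η0 x

/-- the ideal community kernel -/
noncomputable def Msw (k l : Fin K) : ℝ := (1 - I.al) * (if k = l then 1 else 0) + I.al / K

/-- the ideal law of the partner of a half-edge of community `k` -/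
noncomputable def q (k : Fin K) (v : I.H) : ℝ := ((K : ℝ) / I.N) * I.Msw k (I.c v)

/-- the ideal chain, in the additive coordinate `x = - log weight` -/
noncomputable def T (f : Fin K → ℝ → ℝ) : Fin K → ℝ → ℝ := fun k x =>
  ∑ v : I.H, I.q k v * f (I.c v) (x + Real.log (I.dg v))

/-- `n` steps of the ideal chain -/
noncomputable def Tn (n : ℕ) (f : Fin K → ℝ → ℝ) : Fin K → ℝ → ℝ := (I.T)^[n] f

/-! ### exploration -/

/-- states of the exploration: `D` paired half-edges, `L` active half-edges with depth and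
weight, `F` frozen half-edges (touched before) -/
structure St where
  D : Finset I.H
  L : Finset I.H
  F : Finset I.H
  dep : I.H → ℕ
  wt : I.H → ℝ

variable {I}

/-- the vertex of `v` has not been touched -/
def Fresh (S : I.St) (v : I.H) : Prop := ∀ h : I.H, h.1 = v.1 → h ∉ S.D ∧ h ∉ S.L ∧ h ∉ S.F

variable (I) in
/-- the siblings of `v` -/
noncomputable def ch (v : I.H) : Finset I.H := univ.filter fun h => h.1 = v.1 ∧ h ≠ v

/-- the active half-edges which have to be processed -/
noncomputable def procs (s : ℕ) (om : ℝ) (S : I.St) : Finset I.H :=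
  S.L.filter fun a => S.dep a < s ∧ om ≤ S.wt a

/-- an active half-edge of minimal depth among those which have to be processed -/
noncomputable def pick (s : ℕ) (om : ℝ) (S : I.St) : Option I.H :=
  if h : (procs s om S).Nonempty then
    some (Classical.choose (Finset.exists_min_image (procs s om S) S.dep h)) else none

/-- the state after `u` has been paired with `v` -/
noncomputable def nxt (S : I.St) (u v : I.H) : I.St :=
  if Fresh S v then
    { D := insert u (insert v S.D)
      L := (S.L.erase u) ∪ I.ch v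
      F := S.F
      dep := fun h => if h ∈ I.ch v then S.dep u + 1 else S.dep h
      wt := fun h => if h ∈ I.ch v then S.wt u / I.dg v else S.wt h }
  else
    { D := insert u (insert v S.D)
      L := (S.L.erase u).erase v
      F := S.F
      dep := S.dep
      wt := S.wt }

/-- one step of the exploration of the pairing `η` -/
noncomputable def stp (s : ℕ) (om : ℝ) (η : I.H → I.H) (S : I.St) : I.St :=
  match pick s om S with
  | none => S
  | some u => nxt S u (η u)

/-- `k` steps of the exploration -/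
noncomputable def run (s : ℕ) (om : ℝ) (η : I.H → I.H) : ℕ → I.St → I.St
  | 0, S => S
  | k + 1, S => run s om η k (stp s om η S)

/-- no collision while processing half-edges of depth `< r` -/
def NC (r s : ℕ) (om : ℝ) (η : I.H → I.H) : ℕ → I.St → Prop
  | 0, _ => True
  | k + 1, S => (∀ u, pick s om S = some u → S.dep u < r → Fresh S (η u)) ∧
      NC r s om η k (stp s om η S)

/-- the initial state at the half-edge `x` -/
def init (D F : Finset I.H) (x : I.H) : I.St :=
  { D := D, L := {x}, F := F, dep := fun _ => 0, wt := fun _ => 1 }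

/-- the invariant of the exploration; `B` bounds everything that will ever be touched -/
structure Inv (Δ s : ℕ) (om B : ℝ) (η0 : I.H → I.H) (S : I.St) : Prop where
  closed : ∀ x ∈ S.D, η0 x ∈ S.D
  LD : ∀ a ∈ S.L, a ∉ S.D
  LF : ∀ a ∈ S.L, a ∉ S.F
  wpos : ∀ a ∈ S.L, 0 < S.wt a
  deps : ∀ a ∈ S.L, S.dep a ≤ s
  sum1 : ∑ a ∈ S.L, S.wt a ≤ 1
  cap : (S.D.card : ℝ) + S.L.card + S.F.card
    + 2 * Δ * (∑ a ∈ S.L, S.wt a * ((s : ℝ) - S.dep a)) / om ≤ B

/-- the potential -/
noncomputable def Z (s : ℕ) (G : Fin K → ℝ → ℝ) (b : I.H → ℝ) (S : I.St) : ℝ :=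
  ∑ a ∈ S.L, S.wt a * I.Tn (s - S.dep a) G (I.c a) (-Real.log (S.wt a))
    + ∑ a ∈ S.F \ S.D, b a

variable (I) in
/-- the error of one exploration step -/
noncomputable def err (Δ : ℕ) (om B : ℝ) : ℝ :=
  20 * (K : ℝ) ^ 2 * Δ * (B + 1) / I.N + 20 * K / (I.N * om)

/-! ### non-backtracking paths and tangles -/

/-- `y` can follow `x` -/
def Nb (η : I.H → I.H) (x y : I.H) : Prop := y.1 = (η x).1 ∧ y ≠ η x

/-- the vertex reached by the path `x :: l` -/
def endv (η : I.H → I.H) (x : I.H) (l : List I.H) : Fin I.n :=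
  (η ((x :: l).getLast (List.cons_ne_nil x l))).1

/-- the forward ball of radius `r` of `x` is not a tree -/
def Bad (r : ℕ) (η : I.H → I.H) (x : I.H) : Prop :=
  ∃ l l' : List I.H, List.IsChain (Nb η) (x :: l) ∧ List.IsChain (Nb η) (x :: l') ∧
    l.length ≤ r ∧ l'.length ≤ r ∧
    ((l ≠ l' ∧ endv η x l = endv η x l') ∨ endv η x l = x.1)

/-- the vertices of a set of half-edges -/
noncomputable def Vs (S : Finset I.H) : Finset (Fin I.n) := S.image fun h => h.1

/-- a set of at most `L` half-edges, closed under the pairing, with more edges than vertices -/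
def Tangle (L : ℕ) (η : I.H → I.H) : Prop :=
  ∃ S : Finset I.H, (∀ h ∈ S, η h ∈ S) ∧ S.card ≤ L ∧ 2 * (Vs S).card + 1 ≤ S.card

/-! ### ideal quantities -/

variable (I) in
/-- two independent ideal chains of lengths `n1, n2`, from communities `k1, k2`, with total
weight at most `exp (-a)` and each weight at least `exp (-b)`, joined by an edge -/
noncomputable def ideal (n1 n2 : ℕ) (a b : ℝ) (k1 k2 : Fin K) : ℝ :=
  I.Tn n1 (fun k x => I.Tn n2 (fun l y =>
    if a ≤ x + y ∧ x ≤ b ∧ y ≤ b then I.Msw k l else 0) k2 0) k1 0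

end Inst

end KS
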