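import Pool.Agent.Helper96.KS.Parts

/-!
# MP_17e8f0_pr: the random graph in the words of the problem (blocks and matchings)
-/

set_option autoImplicit false

open Finset

namespace KS

open scoped Classical

namespace Inst

variable {K : ℕ} (I : Inst K)

/-- The choices in the construction of the random graph: a block `B k l` of `p` half-edges of
community `k` for all `k ≠ l`, pairwise disjoint for fixed `k`, and a pairing `η` which is a
matching of `B k l` with `B l k` for all `k ≠ l` and a perfect matching of the half-edges of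
community `k` outside the blocks (`B k k` is set to be empty). -/
noncomputable def Conf : Finset ((Fin K → Fin K → Finset I.H) × (I.H → I.H)) :=
  univ.filter fun c =>
    (∀ k, c.1 k k = ∅) ∧
    (∀ k l, k ≠ l → c.1 k l ⊆ I.Hk k ∧ (c.1 k l).card = I.p) ∧
    (∀ k l l', k ≠ l → k ≠ l' → l ≠ l' → Disjoint (c.1 k l) (c.1 k l')) ∧
    (∀ x, c.2 (c.2 x) = x) ∧ (∀ x, c.2 x ≠ x) ∧
    (∀ k l, k ≠ l → ∀ x ∈ c.1 k l, c.2 x ∈ c.1 l k) ∧
    (∀ k, ∀ x ∈ I.Hk k, (∀ l, k ≠ l → x ∉ c.1 k l) → c.2 x ∈ I.Hk k)

/-- probability of an event on the pairing, for uniform choices in the construction -/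
noncomputable def prG (E : (I.H → I.H) → Prop) : ℝ :=
  ((I.Conf.filter fun c => E c.2).card : ℝ) / I.Conf.card

/-- the blocks of an admissible pairing -/
noncomputable def blk (η : I.H → I.H) (k l : Fin K) : Finset I.H :=
  if k = l then ∅ else univ.filter fun x => I.c x = k ∧ I.c (η x) = l

lemma conf_blk {c : (Fin K → Fin K → Finset I.H) × (I.H → I.H)} (hc : c ∈ I.Conf) :
    c.2 ∈ I.Om ∧ c.1 = I.blk c.2 := by
  simp only [Conf, mem_filter, mem_univ, true_and] at hc
  obtain ⟨h0, h1, h2, h3, h4, h5, h6⟩ := hc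
  have hmem : ∀ k x, x ∈ I.Hk k ↔ I.c x = k := by
    intro k x; simp [Inst.Hk]
  have hb : ∀ k l, k ≠ l → c.1 k l = univ.filter fun x => I.c x = k ∧ I.c (c.2 x) = l := by
    intro k l hkl
    ext x
    simp only [mem_filter, mem_univ, true_and]
    constructor
    · intro hx
      refine ⟨(hmem k x).1 ((h1 k l hkl).1 hx), ?_⟩
      have := h5 k l hkl x hx
      exact (hmem l _).1 ((h1 l k (Ne.symm hkl)).1 this)
    · rintro ⟨hx1, hx2⟩
      by_contra hn
      by_cases hex : ∃ l', k ≠ l' ∧ x ∈ c.1 k l'
      · obtain ⟨l', hl', hx'⟩ := hex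
        have := h5 k l' hl' x hx'
        have h7 := (hmem l' _).1 ((h1 l' k (Ne.symm hl')).1 this)
        rw [hx2] at h7
        subst h7
        exact hn hx'
      · push Not at hex
        have := h6 k x ((hmem k x).2 hx1) hex
        rw [hmem] at this
        rw [this] at hx2
        exact hkl hx2
  constructor
  · simp only [Om, mem_filter, mem_univ, true_and]
    refine ⟨h3, h4, ?_⟩
    intro k l hkl
    rw [← hb k l hkl]
    exact (h1 k l hkl).2
  · funext k l
    unfold blk
    split_ifs with hkl
    · subst hkl; exact h0 k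
    · exact hb k l hkl

lemma blk_conf {η : I.H → I.H} (h : η ∈ I.Om) : (I.blk η, η) ∈ I.Conf := by
  simp only [Om, mem_filter, mem_univ, true_and] at h
  obtain ⟨h3, h4, h7⟩ := h
  simp only [Conf, mem_filter, mem_univ, true_and]
  have hb : ∀ k l, k ≠ l → I.blk η k l = univ.filter fun x => I.c x = k ∧ I.c (η x) = l := by
    intro k l hkl
    unfold blk
    rw [if_neg hkl]
  refine ⟨?_, ?_, ?_, h3, h4, ?_, ?_⟩
  · intro k; unfold blk; rw [if_pos rfl]
  · intro k l hkl
    rw [hb k l hkl]
    refine ⟨?_, h7 k l hkl⟩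
    intro x hx
    simp only [mem_filter, mem_univ, true_and] at hx
    simp [Inst.Hk, hx.1]
  · intro k l l' hkl hkl' hll
    rw [hb k l hkl, hb k l' hkl', Finset.disjoint_left]
    intro x hx hx'
    simp only [mem_filter, mem_univ, true_and] at hx hx'
    exact hll (hx.2.symm.trans hx'.2)
  · intro k l hkl x hx
    rw [hb k l hkl] at hx
    rw [hb l k (Ne.symm hkl)]
    simp only [mem_filter, mem_univ, true_and] at hx ⊢
    rw [h3]
    exact ⟨hx.2, hx.1⟩
  · intro k x hx hn
    simp only [Inst.Hk, mem_filter, mem_univ, true_and] at hx ⊢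
    by_contra hne
    have := hn (I.c (η x)) (fun h => hne h.symm)
    rw [hb k _ (fun h => hne h.symm)] at this
    simp only [mem_filter, mem_univ, true_and, not_and] at this
    exact this hx trivial

lemma card_conf (E : (I.H → I.H) → Prop) :
    (I.Conf.filter fun c => E c.2).card = (I.Om.filter E).card := by
  apply Finset.card_bij (fun c _ => c.2)
  · intro c hc
    rw [mem_filter] at hc ⊢
    exact ⟨(I.conf_blk hc.1).1, hc.2⟩
  · intro c hc c' hc' he
    rw [mem_filter] at hc hc'
    have h1 := (I.conf_blk hc.1).2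
    have h2 := (I.conf_blk hc'.1).2
    apply Prod.ext
    · rw [h1, h2, he]
    · exact he
  · intro η hη
    rw [mem_filter] at hη
    exact ⟨(I.blk η, η), mem_filter.2 ⟨I.blk_conf hη.1, hη.2⟩, rfl⟩

theorem prG_eq (E : (I.H → I.H) → Prop) : I.prG E = I.pr E := by
  unfold prG pr
  rw [card_conf]
  have := I.card_conf (fun _ => True)
  simp only [Finset.filter_true] at this
  rw [this]

end Inst

end KS
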