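import Pool.Agent.Helper96.KS.Defs

/-!
# Statements of the parts of the swarm KS (MP_17e8f0_pr)

Every part delivers `theorem main : KS.S_XXX` in `Pool/Agent/<You>/KS/XXX.lean`, importing this
file only (unless the table says otherwise; dependencies on other parts are hypotheses
`(h : S_YYY)`).
-/

set_option autoImplicit false

open Finset

namespace KS

open scoped Classical

open Inst

/-! ## A. the pairing -/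

/-- there is an admissible pairing -/
def S_NE : Prop := ∀ (K Δ : ℕ) (I : Inst K), I.Valid Δ → I.Om.Nonempty

/-- A1: pairing law, community counts. For `u, v` free, in communities `k ≠ l`, the number of
completions with `η u = v` is `p_kl/(n_k n_l)` times the number of all completions, where
`n_k` = number of free half-edges in `k`, `p_kl` = number of remaining `kl` edges; for `k = l` it
is `r_k/(n_k (n_k-1))`, `r_k = n_k - Σ_{l ≠ k} p_kl`. Proof: conjugation by transpositions of free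
half-edges of one community (`η ↦ τ η τ`) preserves the class, so the count only depends on the
communities; sum over `v`, then over `u`. -/
def S_PL1 : Prop := ∀ (K Δ : ℕ) (I : Inst K), I.Valid Δ → ∀ η0 ∈ I.Om, ∀ D : Finset I.H,
  (∀ x ∈ D, η0 x ∈ D) → ∀ u, u ∉ D → ∀ v, v ∉ D → v ≠ u →
  (I.c u ≠ I.c v →
    (((I.Cls η0 D).filter fun η => η u = v).card : ℝ) * (((I.Hk (I.c u)) \ D).card)
        * (((I.Hk (I.c v)) \ D).card)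
      = ((I.p : ℝ) - (D.filter fun x => I.c x = I.c u ∧ I.c (η0 x) = I.c v).card)
        * (I.Cls η0 D).card) ∧
  (I.c u = I.c v →
    (((I.Cls η0 D).filter fun η => η u = v).card : ℝ) * (((I.Hk (I.c u)) \ D).card)
        * ((((I.Hk (I.c u)) \ D).card : ℝ) - 1)
      = ((((I.Hk (I.c u)) \ D).card : ℝ) - ∑ l ∈ univ.filter (fun l : Fin K => l ≠ I.c u),
          ((I.p : ℝ) - (D.filter fun x => I.c x = I.c u ∧ I.c (η0 x) = l).card))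
        * (I.Cls η0 D).card)

/-- A2: pairing law, numerical form (from A1 by elementary estimates) -/
def S_PL : Prop := ∀ (K Δ : ℕ) (I : Inst K), I.Valid Δ → ∀ η0 ∈ I.Om, ∀ D : Finset I.H,
  (∀ x ∈ D, η0 x ∈ D) → 4 * K * (D.card + 2) ≤ I.N → ∀ u, u ∉ D → ∀ v, v ∉ D → v ≠ u →
  |(((I.Cls η0 D).filter fun η => η u = v).card : ℝ) - I.q (I.c u) v * (I.Cls η0 D).card|
    ≤ 8 * (K : ℝ) ^ 2 * (D.card + 1) / (I.N : ℝ) ^ 2 * (I.Cls η0 D).card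

/-- A3: partition of a class according to the partner of `u` -/
def S_ST : Prop := ∀ (K Δ : ℕ) (I : Inst K), I.Valid Δ → ∀ η0 ∈ I.Om, ∀ D : Finset I.H,
  (∀ x ∈ D, η0 x ∈ D) → ∀ u, u ∉ D → ∀ (F : (I.H → I.H) → ℝ) (g : I.H → ℝ),
  (∀ v, v ∉ D → v ≠ u → ∀ η1 ∈ I.Cls η0 D, η1 u = v →
    ∑ η ∈ I.Cls η1 (insert u (insert v D)), F η
      ≤ ((I.Cls η1 (insert u (insert v D))).card : ℝ) * g v) →
  ∑ η ∈ I.Cls η0 D, F η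
    ≤ ∑ v ∈ univ.filter (fun v => v ∉ D ∧ v ≠ u),
        (((I.Cls η0 D).filter fun η => η u = v).card : ℝ) * g v

/-- A4: several prescribed pairs -/
def S_MULT : Prop := ∀ (K Δ : ℕ) (I : Inst K), I.Valid Δ → ∀ b : ℕ, 4 * K * (2 * b + 2) ≤ I.N →
  ∀ x y : Fin b → I.H, Function.Injective (Sum.elim x y) →
  ((I.Om.filter fun η => ∀ i, η (x i) = y i).card : ℝ) ≤ I.Om.card * (3 * K / I.N) ^ b

/-- elementary facts on the kernel `q` -/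
def S_Q : Prop := ∀ (K Δ : ℕ) (I : Inst K), I.Valid Δ →
  (∀ k l, 0 ≤ I.Msw k l) ∧ (∀ k l, I.Msw k l ≤ 1) ∧ (∀ k l, I.Msw k l = I.Msw l k) ∧
  (∀ k, ∑ l, I.Msw k l = 1) ∧ (∀ k v, 0 ≤ I.q k v) ∧ (∀ k v, I.q k v ≤ K / I.N) ∧
  (∀ k, ∑ v, I.q k v = 1) ∧
  (∀ k (f : Fin K → ℝ), ∑ v, I.q k v * f (I.c v) = ∑ l, I.Msw k l * f l)

/-- elementary facts on the ideal chain: linear, monotone, commutes with translations,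
`Tn` of constants, semigroup -/
def S_TN : Prop := ∀ (K Δ : ℕ) (I : Inst K), I.Valid Δ →
  (∀ n (f g : Fin K → ℝ → ℝ), (∀ k x, f k x ≤ g k x) → ∀ k x, I.Tn n f k x ≤ I.Tn n g k x) ∧
  (∀ n (f g : Fin K → ℝ → ℝ) (a b : ℝ), ∀ k x,
    I.Tn n (fun k x => a * f k x + b * g k x) k x = a * I.Tn n f k x + b * I.Tn n g k x) ∧
  (∀ n (a : ℝ), ∀ k x, I.Tn n (fun _ _ => a) k x = a) ∧
  (∀ m n (f : Fin K → ℝ → ℝ), I.Tn (m + n) f = I.Tn m (I.Tn n f)) ∧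
  (∀ n (f : Fin K → ℝ → ℝ) k x, I.Tn n f k x = I.Tn n (fun k y => f k (x + y)) k 0) ∧
  (∀ (n : ℕ) (f g : Fin K → ℝ → ℝ) k x,
    (∀ l y, x + n * Real.log 2 ≤ y → y ≤ x + n * Real.log Δ → f l y ≤ g l y) →
      I.Tn n f k x ≤ I.Tn n g k x)

/-! ## B. exploration -/

/-- B1: one step of the exploration -/
def S_OS : Prop := ∀ (K Δ : ℕ) (I : Inst K), I.Valid Δ → ∀ (s : ℕ) (om B lam : ℝ)
  (G : Fin K → ℝ → ℝ) (b : I.H → ℝ) (η0 : I.H → I.H) (S : I.St) (u : I.H) (pv : I.H → ℝ),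
  0 < om → 0 ≤ lam → (∀ k x, 0 ≤ G k x) → (∀ k x, G k x ≤ 1) → (∀ a, 0 ≤ b a) →
  Inv Δ s om B η0 S → 4 * K * (B + 2) ≤ I.N →
  (∀ a ∈ S.L, 4 * lam * S.wt a ≤ 1) → (∀ a ∈ S.F, 4 * lam * b a ≤ 1) →
  ∑ a ∈ S.F, b a ≤ 1 → pick s om S = some u →
  (∀ v, 0 ≤ pv v) → ∑ v ∈ univ.filter (fun v => v ∉ S.D ∧ v ≠ u), pv v = 1 →
  (∀ v, v ∉ S.D → v ≠ u →
    |pv v - I.q (I.c u) v| ≤ 8 * (K : ℝ) ^ 2 * (S.D.card + 1) / (I.N : ℝ) ^ 2) →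
  ∑ v ∈ univ.filter (fun v => v ∉ S.D ∧ v ≠ u), pv v *
      Real.exp (-lam * Z s G b (nxt S u v) + 4 * lam ^ 2 * ∑ a ∈ (nxt S u v).L, (nxt S u v).wt a ^ 2
        + lam * I.err Δ om B * ∑ a ∈ (nxt S u v).L, (nxt S u v).wt a * ((s : ℝ) - (nxt S u v).dep a))
    ≤ Real.exp (-lam * Z s G b S + 4 * lam ^ 2 * ∑ a ∈ S.L, S.wt a ^ 2
        + lam * I.err Δ om B * ∑ a ∈ S.L, S.wt a * ((s : ℝ) - S.dep a))

/-- B2: the invariant is preserved -/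
def S_INV : Prop := ∀ (K Δ : ℕ) (I : Inst K), I.Valid Δ → ∀ (s : ℕ) (om B : ℝ) (η0 : I.H → I.H)
  (S : I.St), 0 < om → η0 ∈ I.Om → Inv Δ s om B η0 S →
  (∀ u v η1, pick s om S = some u → v ∉ S.D → v ≠ u → η1 ∈ I.Cls η0 S.D → η1 u = v →
    Inv Δ s om B η1 (nxt S u v) ∧
    (∑ a ∈ (nxt S u v).L, (nxt S u v).wt a * ((s : ℝ) - (nxt S u v).dep a)) + om
      ≤ ∑ a ∈ S.L, S.wt a * ((s : ℝ) - S.dep a) ∧
    ∀ M : ℝ, 0 ≤ M → (∀ a ∈ S.L, M * S.wt a ≤ 1) → ∀ a ∈ (nxt S u v).L, M * (nxt S u v).wt a ≤ 1)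

/-- B3: exponential estimate for the exploration -/
def S_TL2 : Prop := ∀ (K Δ : ℕ) (I : Inst K), I.Valid Δ → ∀ (s : ℕ) (om B lam : ℝ)
  (G : Fin K → ℝ → ℝ) (b : I.H → ℝ) (η0 : I.H → I.H) (S : I.St),
  0 < om → 0 ≤ lam → (∀ k x, 0 ≤ G k x) → (∀ k x, G k x ≤ 1) → (∀ a, 0 ≤ b a) →
  η0 ∈ I.Om → Inv Δ s om B η0 S → 4 * K * (B + 2) ≤ I.N →
  (∀ a ∈ S.L, 4 * lam * S.wt a ≤ 1) → (∀ a ∈ S.F, 4 * lam * b a ≤ 1) →
  ∑ a ∈ S.F, b a ≤ 1 → ∀ k : ℕ,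
  ∑ η ∈ I.Cls η0 S.D, Real.exp (-lam * Z s G b (run s om η k S))
    ≤ (I.Cls η0 S.D).card * Real.exp (-lam * Z s G b S + 4 * lam ^ 2 * ∑ a ∈ S.L, S.wt a ^ 2
        + lam * I.err Δ om B * ∑ a ∈ S.L, S.wt a * ((s : ℝ) - S.dep a))

/-- B4: the exploration of a half-edge whose ball is a tree -/
def S_TL1 : Prop := ∀ (K Δ : ℕ) (I : Inst K), I.Valid Δ → ∀ (r s : ℕ) (om B lam z0 ep : ℝ)
  (G : Fin K → ℝ → ℝ) (b : I.H → ℝ) (η0 : I.H → I.H) (D F : Finset I.H) (x : I.H),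
  0 < om → 0 ≤ lam → (∀ k x, 0 ≤ G k x) → (∀ k x, G k x ≤ 1) → (∀ a, 0 ≤ b a) →
  η0 ∈ I.Om → (∀ a ∈ D, η0 a ∈ D) → x ∉ D → x ∉ F →
  (D.card : ℝ) + 1 + F.card + 2 * Δ * s / om ≤ B → 4 * K * (B + 2) ≤ I.N →
  r ≤ s → om ≤ (1 / (Δ : ℝ)) ^ r → 4 * lam * (1 / 2) ^ r ≤ 1 →
  (∀ a ∈ F, 4 * lam * b a ≤ 1) → ∑ a ∈ F, b a ≤ 1 →
  (∀ k y, r * Real.log 2 ≤ y → y ≤ r * Real.log Δ → z0 ≤ I.Tn (s - r) G k y) → ∀ k : ℕ,
  (((I.Cls η0 D).filter fun η => NC r s om η k (init D F x) ∧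
      Z s G b (run s om η k (init D F x)) < z0 + ∑ a ∈ F \ D, b a - ep).card : ℝ)
    ≤ (I.Cls η0 D).card *
      Real.exp (-lam * ep + 4 * lam ^ 2 * (1 / 2) ^ r + lam * I.err Δ om B * s)

/-- B5: the class of a state -/
def S_CL : Prop := ∀ (K Δ : ℕ) (I : Inst K), I.Valid Δ → ∀ (s : ℕ) (om B : ℝ)
  (η0 η : I.H → I.H) (S : I.St) (k : ℕ), 0 < om → η0 ∈ I.Om → Inv Δ s om B η0 S →
  η ∈ I.Cls η0 S.D →
  Inv Δ s om B η (run s om η k S) ∧ S.D ⊆ (run s om η k S).D ∧ (run s om η k S).F = S.F ∧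
  (∀ η' ∈ I.Cls η (run s om η k S).D, run s om η' k S = run s om η k S) ∧
  ((∑ a ∈ S.L, S.wt a * ((s : ℝ) - S.dep a)) / om ≤ k → procs s om (run s om η k S) = ∅)

/-- B6: weights are at most `2^(-depth)` -/
def S_WT : Prop := ∀ (K Δ : ℕ) (I : Inst K), I.Valid Δ → ∀ (s : ℕ) (om : ℝ)
  (η : I.H → I.H) (D F : Finset I.H) (x : I.H) (k : ℕ), 0 < om → η ∈ I.Om →
  (∀ a ∈ D, η a ∈ D) → x ∉ D → x ∉ F →
  ∀ a ∈ (run s om η k (init D F x)).L, (run s om η k (init D F x)).wt a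
    ≤ (1 / 2) ^ ((run s om η k (init D F x)).dep a)

/-- B7: the explored part of the walk is below the walk -/
def S_SK : Prop := ∀ (K Δ : ℕ) (I : Inst K), I.Valid Δ → ∀ (s : ℕ) (om : ℝ)
  (η : I.H → I.H) (D F : Finset I.H) (x : I.H) (k : ℕ) (f : I.H → ℝ), 0 < om → η ∈ I.Om →
  (∀ a ∈ D, η a ∈ D) → x ∉ D → x ∉ F → (∀ y, 0 ≤ f y) →
  ∑ a ∈ (run s om η k (init D F x)).L, (run s om η k (init D F x)).wt a *
      ∑ y, ((I.P η) ^ (s - (run s om η k (init D F x)).dep a)) a y * f y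
    ≤ ∑ y, ((I.P η) ^ s) x y * f y

/-- B8: reversal, double stochasticity, contraction of the distance -/
def S_REV : Prop := ∀ (K Δ : ℕ) (I : Inst K), I.Valid Δ → ∀ η ∈ I.Om,
  (∀ n a b, ((I.P η) ^ n) a b = ((I.P η) ^ n) (η b) (η a)) ∧
  (∀ n a b, 0 ≤ ((I.P η) ^ n) a b) ∧ (∀ n a, ∑ b, ((I.P η) ^ n) a b = 1) ∧
  (∀ n b, ∑ a, ((I.P η) ^ n) a b = 1) ∧
  (∀ t x, 0 ≤ I.Dx η t x ∧ I.Dx η t x ≤ 1) ∧
  (∀ t m x, I.Dx η (t + m) x ≤ ∑ z, ((I.P η) ^ m) x z * I.Dx η t z) ∧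
  (∀ t m x, I.Dx η (t + m) x ≤ I.Dx η t x) ∧
  (∀ t x, I.Dx η t x = ∑ y, max (1 / (I.N : ℝ) - ((I.P η) ^ t) x (η y)) 0) ∧
  (∀ t x, I.Dx η t x = ∑ y, max (((I.P η) ^ t) x y - 1 / (I.N : ℝ)) 0)

/-- B9: no collision if the ball is a tree which avoids the touched half-edges -/
def S_DNC : Prop := ∀ (K Δ : ℕ) (I : Inst K), I.Valid Δ → ∀ (r s : ℕ) (om : ℝ)
  (η : I.H → I.H) (D F : Finset I.H) (x : I.H), 0 < om → η ∈ I.Om →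
  (∀ a ∈ D, η a ∈ D) → x ∉ D → x ∉ F → ¬ Bad r η x →
  (∀ l : List I.H, List.IsChain (Nb η) (x :: l) → l.length ≤ r →
    ∀ h ∈ D ∪ F, h.1 ≠ endv η x l) →
  ∀ k, NC r s om η k (init D F x)

/-- B10: few half-edges see a given set -/
def S_TOUCH : Prop := ∀ (K Δ : ℕ) (I : Inst K), I.Valid Δ → ∀ (r : ℕ)
  (η : I.H → I.H) (X : Finset I.H), η ∈ I.Om →
  ((univ.filter fun y : I.H => ∃ l : List I.H, List.IsChain (Nb η) (y :: l) ∧ l.length ≤ r ∧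
    ∃ h ∈ X, h.1 = endv η y l).card : ℝ) ≤ X.card * (Δ : ℝ) ^ (r + 2)

/-- B11: the final matching of two sets of leaves -/
def S_FM : Prop := ∀ (K Δ : ℕ) (I : Inst K), I.Valid Δ → ∀ (η0 : I.H → I.H)
  (D A B : Finset I.H) (a b : I.H → ℝ) (th lam m ep : ℝ),
  η0 ∈ I.Om → (∀ x ∈ D, η0 x ∈ D) → Disjoint A D → Disjoint B D → Disjoint A B →
  (∀ x, 0 ≤ a x) → (∀ x, 0 ≤ b x) → ∑ x ∈ A, a x ≤ 1 → ∑ x ∈ B, b x ≤ 1 →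
  0 ≤ th → 0 ≤ lam → (D.card : ℝ) + 2 * A.card ≤ m → 4 * K * (m + 2) ≤ I.N →
  (∀ x ∈ A, 4 * lam * K * a x ≤ I.N) → (∀ x ∈ B, 4 * lam * K * b x ≤ I.N) →
  (((I.Cls η0 D).filter fun η =>
      ∑ u ∈ A, ∑ v ∈ B, (if a u * b v ≤ th ∧ η u = v then a u * b v else 0)
        < ∑ u ∈ A, ∑ v ∈ B, (if a u * b v ≤ th then a u * b v * I.q (I.c u) v else 0)
          - ep).card : ℝ)
    ≤ (I.Cls η0 D).card * Real.exp (-lam * ep + 3 * K * lam ^ 2 * th / I.N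
        + 20 * (K : ℝ) ^ 2 * lam * (m + 1) / (I.N : ℝ) ^ 2)

/-! ## F. tangles -/

/-- F0: expected number of closed sets with few vertices -/
def S_F0 : Prop := ∀ (K Δ : ℕ) (I : Inst K), I.Valid Δ → ∀ a b : ℕ, 4 * K * (2 * b + 2) ≤ I.N →
  ∑ η ∈ I.Om, ((univ.filter fun S : Finset I.H => (∀ h ∈ S, η h ∈ S) ∧ S.card = 2 * b ∧
      (Vs S).card ≤ a).card : ℝ)
    ≤ I.Om.card * ((I.N : ℝ) ^ a * ((a : ℝ) * Δ) ^ (2 * b) * (3 * K / I.N) ^ b)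

/-- F1: tangles are rare -/
def S_F1 : Prop := ∀ (K Δ : ℕ) (I : Inst K), I.Valid Δ → ∀ L : ℕ, 4 * K * (L + 2) ≤ I.N →
  ((I.Om.filter fun η => Tangle L η).card : ℝ)
    ≤ I.Om.card * (((L : ℝ) + 1) * (3 * K * Δ * (L + 1)) ^ L / I.N)

/-- F2a: a half-edge whose ball is not a tree has a small witness -/
def S_F2a : Prop := ∀ (K Δ : ℕ) (I : Inst K), I.Valid Δ → ∀ η ∈ I.Om, ∀ (r : ℕ) (x : I.H),
  Bad r η x → ∃ S : Finset I.H, x ∈ S ∧ (∀ h ∈ S, η h ∈ S) ∧ S.card ≤ 4 * (r + 1) ∧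
    ∀ h ∈ S, h.1 ≠ x.1 → ∃ h' ∈ S, h' ≠ h ∧ h'.1 = h.1

/-- F3: the expected number of half-edges whose ball is not a tree -/
def S_FB : Prop := ∀ (K Δ : ℕ) (I : Inst K), I.Valid Δ → ∀ r L : ℕ, L = 4 * (r + 1) →
  4 * K * (L + 2) ≤ I.N →
  ∑ η ∈ I.Om, ((univ.filter fun x : I.H => Bad r η x).card : ℝ)
    ≤ I.Om.card * (((L : ℝ) + 1) ^ 2 * (3 * K * Δ * (L + 1)) ^ L)

/-- F2b: without tangles the walk reaches good half-edges from everywhere -/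
def S_F2b : Prop := ∀ (K Δ : ℕ) (I : Inst K), I.Valid Δ → ∀ η ∈ I.Om, ∀ (r m L : ℕ),
  16 * (r + m + 1) + 2 * m ≤ L → ¬ Tangle L η → ∀ x : I.H,
  ∑ z ∈ univ.filter (fun z : I.H => Bad r η z), ((I.P η) ^ m) x z ≤ 2 * (1 / 2) ^ m

/-! ## C. the ideal chain -/

/-- the corrector -/
noncomputable def psi {K : ℕ} (I : Inst K) (k : Fin K) : ℝ :=
  (1 - I.al) / I.al * (I.muk k - I.mu)

/-- C1: elementary identities and one-step moments -/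
def S_C1 : Prop := ∀ (K Δ : ℕ) (I : Inst K), I.Valid Δ → 0 < I.al →
  I.nu2 = I.sig2 + 2 * (1 - I.al) / I.al * ((1 / (K : ℝ)) * ∑ k, (I.muk k - I.mu) ^ 2) ∧
  I.sig2 ≤ I.nu2 ∧ Real.log 2 ≤ I.mu ∧ I.mu ≤ Real.log Δ ∧
  (∀ k, psi I k ^ 2 ≤ K * I.nu2 / (2 * I.al)) ∧
  (∀ k, ∑ v, I.q k v * (Real.log (I.dg v) - I.mu + psi I (I.c v) - psi I k) = 0) ∧
  (∀ k, ∑ v, I.q k v * (Real.log (I.dg v) - I.mu + psi I (I.c v) - psi I k) ^ 2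
    ≤ 6 * K * I.nu2) ∧
  ((1 / (K : ℝ)) * ∑ k, ∑ v, I.q k v *
      (Real.log (I.dg v) - I.mu + psi I (I.c v) - psi I k) ^ 2 = I.nu2) ∧
  (∀ s0, 0 < s0 → s0 ≤ I.sig2 → ∀ k,
    ∑ v, I.q k v * (Real.log (I.dg v) - I.mu + psi I (I.c v) - psi I k) ^ 4
      ≤ 8 * ((Real.log Δ) ^ 2 * K / s0 + 4 * (K : ℝ) ^ 2 / I.al) * I.nu2 ^ 2)

/-- C2: moments of the martingale -/
def S_MOM : Prop := ∀ (K Δ : ℕ) (I : Inst K), I.Valid Δ → 0 < I.al → ∀ s0, 0 < s0 →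
  s0 ≤ I.sig2 → ∀ (n : ℕ) (k0 : Fin K),
  I.Tn n (fun k x => x - n * I.mu + psi I k - psi I k0) k0 0 = 0 ∧
  I.nu2 * (n - 1 / I.al) ≤ I.Tn n (fun k x => (x - n * I.mu + psi I k - psi I k0) ^ 2) k0 0 ∧
  I.Tn n (fun k x => (x - n * I.mu + psi I k - psi I k0) ^ 2) k0 0 ≤ 6 * K * I.nu2 * n ∧
  I.Tn n (fun k x => (x - n * I.mu + psi I k - psi I k0) ^ 4) k0 0
    ≤ 500 * (K : ℝ) ^ 2 * (1 + (Real.log Δ) ^ 2 / s0) * I.nu2 ^ 2 * ((n : ℝ) ^ 2 + n / I.al)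

/-- C3: Chebyshev for the ideal chain -/
def S_CHEB : Prop := ∀ (K Δ : ℕ) (I : Inst K), I.Valid Δ → 0 < I.al → ∀ s0, 0 < s0 →
  s0 ≤ I.sig2 → ∀ (n : ℕ) (k0 : Fin K) (A : ℝ), 0 < A →
  8 * K * I.nu2 / I.al ≤ A ^ 2 →
  I.Tn n (fun _ x => if A ≤ |x - n * I.mu| then (1 : ℝ) else 0) k0 0 ≤ 24 * K * I.nu2 * n / A ^ 2

/-- C4: one-sided anti-concentration for the ideal chain, with prescribed final community `l`.
Proof: one-sided Paley-Zygmund for `Y = x - nμ + ψ(k) - ψ(k0)` (C2) at time `n - j'`,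
`j' = κ n` with a small constant `κ`, then Chebyshev (C3) for the last `j'` steps, where the
community becomes `l` with probability at least `1/(2K)`. -/
def S_PZ : Prop := ∀ (K Δ : ℕ) (s0 : ℝ), 2 ≤ K → 0 < s0 → ∃ c0 > 0, ∃ de > 0, ∃ A0 > 0,
  ∀ (I : Inst K), I.Valid Δ → 0 < I.al → s0 ≤ I.sig2 → ∀ (n : ℕ) (k0 l : Fin K),
  A0 ≤ I.al * n →
  de ≤ I.Tn n (fun k x => if k = l ∧ n * I.mu + c0 * Real.sqrt (I.nu2 * n) ≤ x then (1 : ℝ)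
    else 0) k0 0 ∧
  de ≤ I.Tn n (fun k x => if k = l ∧ x ≤ n * I.mu - c0 * Real.sqrt (I.nu2 * n) then (1 : ℝ)
    else 0) k0 0

/-- C5: two independent chains -/
def S_ID : Prop := ∀ (K Δ : ℕ) (I : Inst K), I.Valid Δ → 0 < I.al →
  ∀ (n1 n2 : ℕ) (a a1 a2 b : ℝ) (k1 k2 : Fin K), a ≤ a1 + a2 →
  (1 - (1 - I.al) ^ (n1 + n2 + 1)
    - K * I.Tn n1 (fun _ x => if x < a1 then (1 : ℝ) else 0) k1 0
    - K * I.Tn n2 (fun _ x => if x < a2 then (1 : ℝ) else 0) k2 0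
    - K * I.Tn n1 (fun _ x => if b < x then (1 : ℝ) else 0) k1 0
    - K * I.Tn n2 (fun _ x => if b < x then (1 : ℝ) else 0) k2 0
    ≤ K * I.ideal n1 n2 a b k1 k2) ∧
  (∑ l, I.Tn n1 (fun k x => if k = l ∧ a1 ≤ x then (1 : ℝ) else 0) k1 0
      * I.Tn n2 (fun k x => if k = l ∧ a2 ≤ x then (1 : ℝ) else 0) k2 0
    - K * I.Tn n1 (fun _ x => if b < x then (1 : ℝ) else 0) k1 0
    - K * I.Tn n2 (fun _ x => if b < x then (1 : ℝ) else 0) k2 0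
    ≤ K * I.ideal n1 n2 a b k1 k2)

/-! ## G. assembly -/

/-- G1: a pair of half-edges. Parameters: depths `sx, sy`, truncation `om`, threshold `th`. -/
def S_PAIR : Prop := ∀ (K Δ : ℕ) (I : Inst K), I.Valid Δ →
  ∀ (r sx sy : ℕ) (om th B lam lam' ep ze : ℝ),
  0 < om → 0 < th → 0 ≤ lam → 0 ≤ lam' → 0 < ep → r ≤ sx → r ≤ sy →
  2 + 2 * Δ * ((sx : ℝ) + sy) / om ≤ B → 4 * K * (3 * B + 2) ≤ I.N →
  om ≤ (1 / (Δ : ℝ)) ^ r → 4 * lam * (1 / 2) ^ r ≤ 1 → 4 * lam' * K * (1 / 2) ^ r ≤ I.N →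
  (∀ k1 k2, ze ≤ K * I.ideal (sx - r) (sy - r) (-Real.log th - 2 * r * Real.log 2)
    (-Real.log om - r * Real.log Δ) k1 k2) →
  ∀ x y : I.H,
  ((I.Om.filter fun η =>
      ¬ Bad r η x ∧ ¬ Bad r η y ∧
      (∀ l : List I.H, List.IsChain (Nb η) (y :: l) → l.length ≤ r →
        ∀ h ∈ (run sx om η ⌈(sx : ℝ) / om⌉₊ (init ∅ ∅ x)).D
              ∪ (run sx om η ⌈(sx : ℝ) / om⌉₊ (init ∅ ∅ x)).L, h.1 ≠ endv η y l) ∧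
      y ∉ (run sx om η ⌈(sx : ℝ) / om⌉₊ (init ∅ ∅ x)).D ∧
      y ∉ (run sx om η ⌈(sx : ℝ) / om⌉₊ (init ∅ ∅ x)).L ∧
      ((I.P η) ^ (sx + sy)) x (η y) < (ze - 4 * K * ep) / I.N).card : ℝ)
    ≤ I.Om.card * ((K + 2) *
        Real.exp (-lam * ep + 4 * lam ^ 2 * (1 / 2) ^ r + lam * I.err Δ om B * ((sx : ℝ) + sy))
      + Real.exp (-lam' * ep / I.N + 3 * K * lam' ^ 2 * th / I.N
          + 20 * (K : ℝ) ^ 2 * lam' * (3 * B + 1) / (I.N : ℝ) ^ 2))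

/-- G2: upper bound for the distance -/
def S_UB : Prop := ∀ (K Δ : ℕ) (I : Inst K), I.Valid Δ →
  ∀ (r m L sx sy : ℕ) (om th B lam lam' ep ze : ℝ),
  0 < om → 0 < th → 0 ≤ lam → 0 ≤ lam' → 0 < ep → r ≤ sx → r ≤ sy → ze ≤ 1 →
  2 + 2 * Δ * ((sx : ℝ) + sy) / om ≤ B → 4 * K * (3 * B + 2) ≤ I.N →
  om ≤ (1 / (Δ : ℝ)) ^ r → 4 * lam * (1 / 2) ^ r ≤ 1 → 4 * lam' * K * (1 / 2) ^ r ≤ I.N →
  16 * (r + m + 1) + 2 * m ≤ L → 4 * K * (L + 2) ≤ I.N →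
  (∀ k1 k2, ze ≤ K * I.ideal (sx - r) (sy - r) (-Real.log th - 2 * r * Real.log 2)
    (-Real.log om - r * Real.log Δ) k1 k2) →
  ((I.Om.filter fun η =>
      1 - ze + 5 * K * ep + 2 * (1 / 2) ^ m + B * (Δ : ℝ) ^ (r + 3) / I.N
        < I.D η (sx + sy + m)).card : ℝ)
    ≤ I.Om.card * (2 * (((L : ℝ) + 1) ^ 2 * (3 * K * Δ * (L + 1)) ^ L) / (ep * I.N) +
      (((L : ℝ) + 1) ^ 2 * (3 * K * Δ * (L + 1)) ^ L) / I.N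
      + (I.N : ℝ) ^ 2 * ((K + 2) *
        Real.exp (-lam * ep + 4 * lam ^ 2 * (1 / 2) ^ r + lam * I.err Δ om B * ((sx : ℝ) + sy))
      + Real.exp (-lam' * ep / I.N + 3 * K * lam' ^ 2 * th / I.N
          + 20 * (K : ℝ) ^ 2 * lam' * (3 * B + 1) / (I.N : ℝ) ^ 2)))

/-- G3: lower bound for the distance -/
def S_LB : Prop := ∀ (K Δ : ℕ) (I : Inst K), I.Valid Δ →
  ∀ (r L s : ℕ) (om B lam ep z0 : ℝ),
  0 < om → 0 ≤ lam → 0 < ep → r ≤ s → L = 4 * (r + 1) → 4 * K * (L + 2) ≤ I.N →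
  1 + 2 * Δ * (s : ℝ) / om ≤ B → 4 * K * (B + 2) ≤ I.N →
  om ≤ (1 / (Δ : ℝ)) ^ r → 4 * lam * (1 / 2) ^ r ≤ 1 →
  (∀ k, z0 ≤ I.Tn (s - r) (fun _ x => if x ≤ -Real.log om - r * Real.log Δ then (1 : ℝ) else 0)
    k 0) →
  ((I.Om.filter fun η => I.D η s < z0 - ep - 1 / (I.N * om)).card : ℝ)
    ≤ I.Om.card * (2 * (((L : ℝ) + 1) ^ 2 * (3 * K * Δ * (L + 1)) ^ L) / I.N
      + I.N * Real.exp (-lam * ep + 4 * lam ^ 2 * (1 / 2) ^ r + lam * I.err Δ om B * s))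

/-! ## H. asymptotics -/

/-- the logarithmic number of steps that are given away -/
noncomputable def RR {K : ℕ} (I : Inst K) : ℕ := ⌈5 * Real.log (Real.log I.N)⌉₊

/-- H1: asymptotic form of G2, with `r = m = RR`, `th = 1/(N log^2 N)`, `om = N^(-2/3)`,
`lam = ep * 2^r / 16`, `lam' = N (log N)^(3/2)` -/
def S_UBA : Prop := ∀ (K Δ : ℕ) (ep de Cm : ℝ), 2 ≤ K → 0 < ep → 0 < de → 0 < Cm → ∃ N0 : ℝ,
  ∀ I : Inst K, I.Valid Δ → N0 ≤ I.N → ∀ (t : ℕ) (ze : ℝ), ze ≤ 1 →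
  (t : ℝ) ≤ Cm * Real.log I.N → 3 * RR I ≤ t →
  (∀ n1 n2 : ℕ, n1 + n2 + 3 * RR I = t → n1 ≤ n2 → n2 ≤ n1 + 1 → ∀ k1 k2,
    ze ≤ K * I.ideal n1 n2 (Real.log I.N + 2 * Real.log (Real.log I.N))
      (65 / 100 * Real.log I.N) k1 k2) →
  I.pr (fun η => 1 - ze + ep < I.D η t) ≤ de

/-- H2: asymptotic form of G3, with `r = RR`, `om = (log N)^3 / N`, `lam = ep * 2^r / 16` -/
def S_LBA : Prop := ∀ (K Δ : ℕ) (ep de Cm : ℝ), 2 ≤ K → 0 < ep → 0 < de → 0 < Cm → ∃ N0 : ℝ,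
  ∀ I : Inst K, I.Valid Δ → N0 ≤ I.N → ∀ (t : ℕ) (z0 : ℝ),
  (t : ℝ) ≤ Cm * Real.log I.N → RR I ≤ t →
  (∀ k, z0 ≤ I.Tn (t - RR I) (fun _ x => if x ≤ Real.log I.N - 3 * Real.log (Real.log I.N)
    - RR I * Real.log Δ then (1 : ℝ) else 0) k 0) →
  I.pr (fun η => I.D η t < z0 - ep) ≤ de

/-- H3: above `log N / μ + C w` -/
def S_AU1 : Prop := ∀ (K Δ : ℕ) (s0 ep : ℝ), 2 ≤ K → 0 < s0 → 0 < ep → ∃ C > 0, ∀ de > 0,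
  ∃ A N0 : ℝ, ∀ I : Inst K, I.Valid Δ → N0 ≤ I.N → A ≤ I.al * Real.log I.N → s0 ≤ I.sig2 →
  ∀ t : ℕ, Real.log I.N / I.mu + C * I.w ≤ t → I.pr (fun η => ep ≤ I.D η t) ≤ de

/-- H4: above `log N / μ` -/
def S_AU2 : Prop := ∀ (K Δ : ℕ) (s0 : ℝ), 2 ≤ K → 0 < s0 → ∃ e2 > 0, e2 < 1 ∧ ∀ de > 0,
  ∃ A N0 : ℝ, ∀ I : Inst K, I.Valid Δ → N0 ≤ I.N → A ≤ I.al * Real.log I.N → s0 ≤ I.sig2 →
  ∀ t : ℕ, Real.log I.N / I.mu ≤ t → I.pr (fun η => e2 ≤ I.D η t) ≤ de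

/-- H5: below `log N / μ - C w` -/
def S_AL1 : Prop := ∀ (K Δ : ℕ) (s0 ep : ℝ), 2 ≤ K → 0 < s0 → 0 < ep → ep < 1 → ∃ C > 0, ∀ de > 0,
  ∃ A N0 : ℝ, ∀ I : Inst K, I.Valid Δ → N0 ≤ I.N → A ≤ I.al * Real.log I.N → s0 ≤ I.sig2 →
  ∀ t : ℕ, (t : ℝ) ≤ Real.log I.N / I.mu - C * I.w → I.pr (fun η => I.D η t < ep) ≤ de

/-- H6: below `log N / μ + c w` -/
def S_AL2 : Prop := ∀ (K Δ : ℕ) (s0 : ℝ), 2 ≤ K → 0 < s0 → ∃ e1 > 0, ∃ c1 > 0, e1 < 1 ∧ ∀ de > 0,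
  ∃ A N0 : ℝ, ∀ I : Inst K, I.Valid Δ → N0 ≤ I.N → A ≤ I.al * Real.log I.N → s0 ≤ I.sig2 →
  ∀ t : ℕ, (t : ℝ) ≤ Real.log I.N / I.mu + c1 * I.w → I.pr (fun η => I.D η t < e1) ≤ de

/-- the regime of the problem -/
structure Regime (K Δ : ℕ) (I : ℕ → Inst K) : Prop where
  valid : ∀ i, (I i).Valid Δ
  N : Filter.Tendsto (fun i => ((I i).N : ℝ)) Filter.atTop Filter.atTop
  sig : ∃ s0 > 0, ∀ᶠ i in Filter.atTop, s0 ≤ (I i).sig2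
  al : Filter.Tendsto (fun i => (I i).al * Real.log (I i).N) Filter.atTop Filter.atTop

/-- the final theorem -/
def S_FIN : Prop := ∀ (K Δ : ℕ) (I : ℕ → Inst K), Regime K Δ I →
  (∀ ep : ℝ, 0 < ep → ep < 1 → ∀ de : ℝ, 0 < de → ∃ C : ℝ, ∀ᶠ i in Filter.atTop,
    (I i).pr (fun η => ¬ ∃ m : ℕ, (I i).IsTmix η ep m ∧
      |(m : ℝ) - Real.log (I i).N / (I i).mu| ≤ C * (I i).w) ≤ de) ∧
  (∃ ep ep' c : ℝ, 0 < ep ∧ ep < ep' ∧ ep' < 1 ∧ 0 < c ∧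
    Filter.Tendsto (fun i => (I i).pr (fun η => ∃ m m' : ℕ, (I i).IsTmix η ep m ∧
      (I i).IsTmix η ep' m' ∧ c * (I i).w ≤ (m : ℝ) - m')) Filter.atTop (nhds 1))

end KS
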